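import Pool.Agent.TH875.Vg.Loc
import Mathlib.RingTheory.AlgebraicIndependent.AlgebraicClosure

/-! Local estimates for the Jacobian of a curve on `ℙ¹ × ℙ¹` that moves with a parameter. -/

set_option autoImplicit false

open FF
open Pool.Agent.W603.LV Pool.Agent.W603.PV
open Pool.Agent.TH875.Vg

namespace Pool.Agent.TH875.PQ

/-- Derivations with prescribed values on algebraically independent elements. -/
theorem exists_genericQ {k : Type*} [Field k] [CharZero k] {ι : Type*}
    {c : ι → k} (hc : AlgebraicIndependent ℚ c) [DecidableEq ι] (j : ι) :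
    ∃ d : Derivation ℤ k k, ∀ i, d (c i) = if i = j then 1 else 0 := by
  have halg : Algebra.IsAlgebraic ℚ (⊥ : Subfield k) := by
    constructor
    rintro ⟨y, hy⟩
    rw [Subfield.bot_eq_of_charZero] at hy
    obtain ⟨r, rfl⟩ := hy
    have h1 : (⟨algebraMap ℚ k r, by rw [Subfield.bot_eq_of_charZero]; exact ⟨r, rfl⟩⟩ :
        (⊥ : Subfield k)) = algebraMap ℚ (⊥ : Subfield k) r := by
      ext
      simp
    rw [h1]
    exact isAlgebraic_algebraMap r
  have h2 : AlgebraicIndependent (⊥ : Subfield k) c := hc.extendScalars (⊥ : Subfield k)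
  obtain ⟨d, -, hd⟩ := exists_generic (⊥ : Subfield k) h2 j
  exact ⟨d, hd⟩

section

variable {k : Type} [Field k] {L : Type} [Field L] [Algebra k L]

/-- the order of the pole of `f` -/
noncomputable def pol (P : Place k L) (f : L) : ℤ := max (-P.ord f) 0

/-- the order of the zero of `f` -/
noncomputable def zer (P : Place k L) (f : L) : ℤ := max (P.ord f) 0

/-- the order of contact with the points `a i` -/
noncomputable def con {q : ℕ} (a : Fin q → k) (P : Place k L) (f : L) : ℤ :=
  ∑ i, zer P (f - algebraMap k L (a i))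

theorem pol_nonneg (P : Place k L) (f : L) : 0 ≤ pol P f := le_max_right _ _

theorem zer_nonneg (P : Place k L) (f : L) : 0 ≤ zer P f := le_max_right _ _

theorem con_nonneg {q : ℕ} (a : Fin q → k) (P : Place k L) (f : L) : 0 ≤ con a P f :=
  Finset.sum_nonneg fun _ _ => zer_nonneg _ _

theorem ge_pol (P : Place k L) (f : L) : Ge P (-pol P f) f := by
  right
  unfold pol
  have := le_max_left (-P.ord f) 0
  linarith

theorem pol_le_of_ge {P : Place k L} {f : L} {N : ℤ} (hN : 0 ≤ N) (h : Ge P (-N) f) :
    pol P f ≤ N := by
  unfold pol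
  rcases h with h | h
  · rw [h, P.ord_zero]; simpa using hN
  · exact max_le (by linarith) hN

theorem pol_sub_const (P : Place k L) (f : L) (c : k) :
    pol P (f - algebraMap k L c) = pol P f := by
  apply le_antisymm
  · exact pol_le_of_ge (pol_nonneg _ _) ((ge_pol P f).sub
      ((Ge.const c).mono (by have := pol_nonneg P f; linarith)))
  · refine pol_le_of_ge (pol_nonneg _ _) ?_
    have h1 := (ge_pol P (f - algebraMap k L c)).add
      ((Ge.const (P := P) c).mono (by have := pol_nonneg P (f - algebraMap k L c); linarith :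
        -pol P (f - algebraMap k L c) ≤ 0))
    simpa using h1

theorem pol_zero_of_zer {P : Place k L} {f : L} {c : k}
    (h : 0 < P.ord (f - algebraMap k L c)) : pol P f = 0 := by
  rw [← pol_sub_const P f c]
  unfold pol
  exact max_eq_right (by linarith)

/-- at most one contact -/
theorem con_eq {q : ℕ} {a : Fin q → k} (ha : Function.Injective a) {P : Place k L} {f : L}
    {i : Fin q} (h : 0 < P.ord (f - algebraMap k L (a i))) :
    con a P f = P.ord (f - algebraMap k L (a i)) := by
  unfold con
  rw [Finset.sum_eq_single i]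
  · exact max_eq_left h.le
  · intro j _ hj
    unfold zer
    apply max_eq_right
    by_contra hcon
    push Not at hcon
    have h1 : Ge P 1 (algebraMap k L (a i - a j)) := by
      have h2 : algebraMap k L (a i - a j) =
          (f - algebraMap k L (a j)) - (f - algebraMap k L (a i)) := by
        rw [map_sub]; ring
      rw [h2]
      exact Ge.sub (Or.inr (by omega)) (Or.inr (by omega))
    have h3 := const_zero P h1
    exact hj (ha (sub_eq_zero.1 h3).symm)
  · intro h1; exact absurd (Finset.mem_univ i) h1

theorem con_cases {q : ℕ} {a : Fin q → k} (ha : Function.Injective a) (P : Place k L) (f : L) :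
    con a P f = 0 ∨ ∃ i, 0 < P.ord (f - algebraMap k L (a i)) ∧
      con a P f = P.ord (f - algebraMap k L (a i)) := by
  by_cases h : ∃ i, 0 < P.ord (f - algebraMap k L (a i))
  · obtain ⟨i, hi⟩ := h
    exact Or.inr ⟨i, hi, con_eq ha hi⟩
  · push Not at h
    left
    unfold con zer
    exact Finset.sum_eq_zero fun i _ => max_eq_right (h i)

end

section

variable {k : Type} [Field k] [CharZero k] [IsAlgClosed k] {L : Type} [Field L] [Algebra k L]
  [IsFF k L]

variable (k) in
/-- the Jacobian -/
noncomputable def W (D : Derivation ℤ L L) (t x : L) : L := D t * der k L x - D x * der k L t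

omit [IsAlgClosed k] in
theorem W_swap (D : Derivation ℤ L L) (t x : L) : W k D x t = - W k D t x := by
  unfold W; ring

theorem W_indep {d : Derivation ℤ k k} {D D' : Derivation ℤ L L} (h : IsLift d D)
    (h' : IsLift d D') (t x : L) : W k D t x = W k D' t x := by
  obtain ⟨E, hE⟩ := h.diff h'
  obtain ⟨c, hc⟩ := der_smul (D' := E) (der_ne (k := k) (K := L))
  unfold W
  rw [hE, hE, hc]
  simp only [Derivation.coe_smul, Pi.smul_apply, smul_eq_mul]
  ring

/-- estimates at a place for a function -/
theorem ge_basic (P : Place k L) {d : Derivation ℤ k k} {D : Derivation ℤ L L} (h : IsLift d D)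
    (hD : D (unif P) = 0) (f : L) :
    Ge P (-2 * pol P f) (D f) ∧ Ge P (-2 * pol P f + vo P (der k L)) (der k L f) := by
  have hp := pol_nonneg P f
  refine ⟨(h.ge P (ord_unif P) hD (ge_pol P f)).mono (by linarith), ?_⟩
  by_cases h0 : P.ord f < 0
  · have h1 := ord_der P (der_ne (k := k) (K := L)) h0.ne
    right
    rw [h1.2]
    unfold pol
    rw [max_eq_left (by linarith)]
    linarith
  · push Not at h0
    have hf : Ge P 0 f := Or.inr h0
    obtain ⟨g, hg, e⟩ := der_mul P (ord_unif P) (der_ne (k := k) (K := L)) hf
    rw [e]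
    have h2 : Ge P (vo P (der k L)) (der k L (unif P)) := Or.inr le_rfl
    exact (h2.mul hg).mono (by linarith)

/-- estimates at a place for a function with a zero -/
theorem ge_contact (P : Place k L) {d : Derivation ℤ k k} {D : Derivation ℤ L L} (h : IsLift d D)
    (hD : D (unif P) = 0) {f : L} {c : k} (hf : 0 < P.ord (f - algebraMap k L c)) :
    Ge P (P.ord (f - algebraMap k L c)) (D f - algebraMap k L (d c)) ∧
      Ge P (P.ord (f - algebraMap k L c) - 1 + vo P (der k L)) (der k L f) := by
  constructor
  · have h1 := h.ge P (ord_unif P) hD (f := f - algebraMap k L c)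
      (N := P.ord (f - algebraMap k L c)) (Or.inr le_rfl)
    rw [map_sub, h c] at h1
    exact h1
  · have h1 := ord_der P (der_ne (k := k) (K := L)) hf.ne'
    rw [map_sub, Derivation.map_algebraMap, sub_zero] at h1
    exact Or.inr h1.2.ge

/-- The estimates for a function, with the orders of contact. -/
theorem ge_con {q : ℕ} {a : Fin q → k} (ha : Function.Injective a) (P : Place k L)
    {d : Derivation ℤ k k} {D : Derivation ℤ L L} (h : IsLift d D)
    (hD : D (unif P) = 0) (f : L)
    (hd : ∀ i, 0 < P.ord (f - algebraMap k L (a i)) → d (a i) = 0) :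
    Ge P (-2 * pol P f + con a P f) (D f) := by
  rcases con_cases ha P f with h0 | ⟨i, hi, h0⟩
  · rw [h0, add_zero]
    exact (ge_basic P h hD f).1
  · rw [h0, pol_zero_of_zer hi]
    have h1 := (ge_contact P h hD hi).1
    rw [hd i hi, map_zero, sub_zero] at h1
    simpa using h1

theorem ge_der_con {q : ℕ} {a : Fin q → k} (ha : Function.Injective a) (P : Place k L) (f : L) :
    Ge P (-2 * pol P f + max (con a P f - 1) 0 + vo P (der k L)) (der k L f) := by
  have hlift : IsLift (0 : Derivation ℤ k k) (toZ (0 : Derivation k L L)) := by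
    intro c
    simp [toZ_apply]
  have h00 : toZ (0 : Derivation k L L) (unif P) = 0 := by simp [toZ_apply]
  rcases con_cases ha P f with h0 | ⟨i, hi, h0⟩
  · rw [h0]
    have h1 := (ge_basic P hlift h00 f).2
    exact h1.mono (by simp)
  · rw [h0, pol_zero_of_zer hi]
    have h1 := (ge_contact P hlift h00 hi).2
    exact h1.mono (by rw [max_eq_left (by omega)]; linarith)

/-- the local estimate of the Jacobian -/
theorem ge_W {q₁ q₂ : ℕ} {a : Fin q₁ → k} (ha : Function.Injective a) {b : Fin q₂ → k}
    (hb : Function.Injective b) (P : Place k L) {d : Derivation ℤ k k} {D : Derivation ℤ L L}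
    (h : IsLift d D) (t x : L)
    (hdb : ∀ j, 0 < P.ord (x - algebraMap k L (b j)) → d (b j) = 0) :
    Ge P (-2 * pol P t - 2 * pol P x + max (con b P x - 1) 0 + vo P (der k L)) (W k D t x) ∧
    ((∀ i, 0 < P.ord (t - algebraMap k L (a i)) → d (a i) = 0) →
      Ge P (-2 * pol P t - 2 * pol P x + max (con a P t + con b P x - 1) 0 + vo P (der k L))
        (W k D t x)) := by
  have htr : Transcendental k (unif P) := P.transcendental_of_ord_ne (by rw [ord_unif]; omega)
  obtain ⟨D₀, hD₀, hD₀u⟩ := exists_lift d htr
  rw [W_indep h hD₀]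
  have hx1 := ge_con hb P hD₀ hD₀u x hdb
  have hx2 := ge_der_con hb P x
  have ht2 := ge_der_con ha P t
  have ht0 := (ge_basic P hD₀ hD₀u t).1
  have hα := con_nonneg a P t
  have hβ := con_nonneg b P x
  constructor
  · unfold W
    refine Ge.sub ((ht0.mul hx2).mono (by linarith)) ((hx1.mul ht2).mono ?_)
    have : max (con b P x - 1) 0 ≤ con b P x := max_le (by linarith) hβ
    have h2 : 0 ≤ max (con a P t - 1) 0 := le_max_right _ _
    linarith
  · intro hda
    have ht1 := ge_con ha P hD₀ hD₀u t hda
    unfold W
    refine Ge.sub ((ht1.mul hx2).mono ?_) ((hx1.mul ht2).mono ?_)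
    · have : max (con a P t + con b P x - 1) 0 ≤ con a P t + max (con b P x - 1) 0 := by
        rcases le_total (con b P x - 1) 0 with h1 | h1
        · rw [max_eq_right h1]; exact max_le (by linarith) (by linarith)
        · rw [max_eq_left h1]; exact max_le (by linarith) (by linarith)
      linarith
    · have : max (con a P t + con b P x - 1) 0 ≤ con b P x + max (con a P t - 1) 0 := by
        rcases le_total (con a P t - 1) 0 with h1 | h1
        · rw [max_eq_right h1]; exact max_le (by linarith) (by linarith)
        · rw [max_eq_left h1]; exact max_le (by linarith) (by linarith)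
      linarith

/-- If the curve does not move with the point `c`, then it is ramified over this point. -/
theorem ge_of_W_eq {q : ℕ} {a : Fin q → k} (ha : Function.Injective a) (P : Place k L)
    {d : Derivation ℤ k k} {D : Derivation ℤ L L} (h : IsLift d D) {t x : L} {c : k}
    (hc : 0 < P.ord (x - algebraMap k L c)) (hdc : d c = 1) (hda : ∀ i, d (a i) = 0)
    (ht : der k L t ≠ 0) (hW : W k D t x = 0) :
    con a P t = 0 ∧
      Ge P (-2 * pol P t + (P.ord (x - algebraMap k L c) - 1) + vo P (der k L)) (der k L t) := by
  have htr : Transcendental k (unif P) := P.transcendental_of_ord_ne (by rw [ord_unif]; omega)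
  obtain ⟨D₀, hD₀, hD₀u⟩ := exists_lift d htr
  rw [W_indep h hD₀] at hW
  have hx1 := (ge_contact P hD₀ hD₀u hc).1
  have hx2 := (ge_contact P hD₀ hD₀u hc).2
  have ht1 := ge_con ha P hD₀ hD₀u t (fun i _ => hda i)
  rw [hdc, map_one] at hx1
  -- `D₀ x` is a unit
  have hu : D₀ x ≠ 0 ∧ P.ord (D₀ x) = 0 := by
    have h1 : Ge P 0 (D₀ x) := by
      have := (hx1.mono hc.le).add (Ge.one (P := P))
      simpa using this
    have hne : D₀ x ≠ 0 := by
      intro h0
      rw [h0, zero_sub] at hx1
      have h2 : Ge P 1 (algebraMap k L (1 : k)) := by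
        have := hx1.neg
        rw [neg_neg] at this
        rw [map_one]
        exact this.mono (by omega)
      exact one_ne_zero (const_zero P h2)
    refine ⟨hne, le_antisymm ?_ (h1.resolve_left hne)⟩
    by_contra hcon
    push Not at hcon
    have h2 : Ge P 1 (algebraMap k L (1 : k)) := by
      have h3 : Ge P 1 (D₀ x) := Or.inr (by omega)
      have h4 := h3.sub (hx1.mono (by omega : (1 : ℤ) ≤ _))
      rw [map_one]
      simpa using h4
    exact one_ne_zero (const_zero P h2)
  have hWe : D₀ x * der k L t = D₀ t * der k L x := by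
    unfold W at hW
    linear_combination -hW
  have h3 : Ge P ((-2 * pol P t + con a P t) +
      (P.ord (x - algebraMap k L c) - 1 + vo P (der k L))) (D₀ x * der k L t) := by
    rw [hWe]; exact ht1.mul hx2
  have h4 := Ge.of_mul hu.1 h3
  rw [hu.2, sub_zero] at h4
  have h5 : con a P t = 0 := by
    rcases con_cases ha P t with h0 | ⟨i, hi, h0⟩
    · exact h0
    · exfalso
      have h6 := ord_der P (der_ne (k := k) (K := L)) hi.ne'
      rw [map_sub, Derivation.map_algebraMap, sub_zero] at h6
      have h7 := h4.resolve_left ht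
      rw [h6.2, h0, pol_zero_of_zer hi] at h7
      omega
  refine ⟨h5, h4.mono ?_⟩
  rw [h5]
  linarith

end

end Pool.Agent.TH875.PQ
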