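import Pool.Agent.TH875.PQ.A

/-! Curves on `ℙ¹ × ℙ¹` with high contact with very general fibres. -/

set_option autoImplicit false

open FF
open Pool.Agent.W603.LV Pool.Agent.W603.PV
open Pool.Agent.TH875.Vg

namespace Pool.Agent.TH875.PQ

section

variable {k : Type} [Field k] [CharZero k] [IsAlgClosed k] {L : Type} [Field L] [Algebra k L]
  [IsFF k L]

theorem sum_pol (f : L) (T : Finset (Place k L)) (hT : ∀ P, P.ord f ≠ 0 → P ∈ T) :
    ∑ P ∈ T, pol P f = hgt k f := (hgt_finset f T hT).symm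

theorem sum_zer (f : L) (T : Finset (Place k L)) (hT : ∀ P, P.ord f ≠ 0 → P ∈ T) :
    ∑ P ∈ T, zer P f = hgt k f := by
  rw [← hgt_inv, hgt_finset f⁻¹ T (fun P hP => hT P (by rw [P.ord_inv] at hP; omega))]
  refine Finset.sum_congr rfl fun P _ => ?_
  rw [P.ord_inv, neg_neg]
  rfl

theorem hgt_sub_const (f : L) (c : k) : hgt k (f - algebraMap k L c) = hgt k f := by
  unfold hgt
  refine finsum_congr fun P => ?_
  exact pol_sub_const P f c

theorem sum_con {q : ℕ} (a : Fin q → k) (f : L) (T : Finset (Place k L))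
    (hT : ∀ i, ∀ P, P.ord (f - algebraMap k L (a i)) ≠ 0 → P ∈ T) :
    ∑ P ∈ T, con a P f = q * hgt k f := by
  unfold con
  rw [Finset.sum_comm]
  have h1 : ∀ i ∈ (Finset.univ : Finset (Fin q)),
      ∑ P ∈ T, zer P (f - algebraMap k L (a i)) = hgt k f := fun i _ => by
    rw [sum_zer _ T (hT i), hgt_sub_const]
  rw [Finset.sum_congr rfl h1, Finset.sum_const, Finset.card_univ, Fintype.card_fin, nsmul_eq_mul]

/-- arithmetic of the multiplicities -/
theorem arith {n : ℕ} (hn : 1 ≤ n) {s : ℤ} (hs : s = 0 ∨ (n : ℤ) ≤ s) :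
    (1 - 1 / n : ℚ) * s ≤ (max (s - 1) 0 : ℤ) := by
  have hn0 : (0 : ℚ) < n := by exact_mod_cast hn
  rcases hs with h | h
  · rw [h]; simp
  · have h1 : (1 : ℤ) ≤ s := by omega
    rw [max_eq_left (by omega)]
    push_cast
    have h2 : (1 : ℚ) ≤ 1 / n * s := by
      rw [one_div, inv_mul_eq_div, le_div_iff₀ hn0, one_mul]
      exact_mod_cast h
    nlinarith

theorem arith2 {n : ℕ} (hn : 1 ≤ n) {α β : ℤ} (hα : 1 ≤ α) (hβ : 0 ≤ β) :
    (1 - 1 / n : ℚ) * (α + β) - 2 * (1 - 1 / n) * α ≤ (max (β - 1) 0 : ℤ) := by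
  have hn0 : (1 : ℚ) ≤ n := by exact_mod_cast hn
  have h1 : (0 : ℚ) ≤ 1 - 1 / n := by
    rw [sub_nonneg, div_le_one (by linarith)]; exact hn0
  have h2 : (0 : ℚ) ≤ 1 / n := by positivity
  have hα' : (1 : ℚ) ≤ α := by exact_mod_cast hα
  have hβ' : (0 : ℚ) ≤ β := by exact_mod_cast hβ
  obtain ⟨μ, hμ⟩ : ∃ μ : ℚ, μ = 1 / n := ⟨_, rfl⟩
  rw [← hμ] at h1 h2 ⊢
  rcases lt_or_ge β 1 with h | h
  · have h3 : β = 0 := by omega
    rw [h3]
    rw [max_eq_right (by omega)]
    push_cast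
    nlinarith
  · rw [max_eq_left (by omega)]
    have h3 : (1 : ℚ) ≤ β := by exact_mod_cast h
    push_cast
    nlinarith

variable {q₁ q₂ : ℕ} {a : Fin q₁ → k} {b : Fin q₂ → k} {n : ℕ} {t x : L}

/-- The curve moves with the point `a i₀`. -/
theorem ineq_move (ha : Function.Injective a) (hb : Function.Injective b) (hn : 1 ≤ n)
    (horb : ∀ P : Place k L, con a P t + con b P x = 0 ∨ (n : ℤ) ≤ con a P t + con b P x)
    {i₀ : Fin q₁} {d : Derivation ℤ k k} (hda : ∀ i, i ≠ i₀ → d (a i) = 0)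
    (hdb : ∀ j, d (b j) = 0) {D : Derivation ℤ L L} (h : IsLift d D) (hW : W k D t x ≠ 0) :
    ((1 - 1 / n : ℚ) * q₁ - 2) * hgt k t + ((1 - 1 / n : ℚ) * q₂ - 2) * hgt k x ≤
      canDeg k L + 2 * (1 - 1 / n) * hgt k t := by
  classical
  obtain ⟨T1, hT1⟩ := exists_supp (k := k) (Finset.univ : Finset (Fin q₁))
    fun i => t - algebraMap k L (a i)
  obtain ⟨T2, hT2⟩ := exists_supp (k := k) (Finset.univ : Finset (Fin q₂))
    fun j => x - algebraMap k L (b j)
  obtain ⟨T3, hT3⟩ := exists_supp (k := k) (Finset.univ : Finset (Fin 3)) ![t, x, W k D t x]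
  have hvf := vo_finite (k := k) (K := L) der_ne
  obtain ⟨T, hTd⟩ : ∃ T, T = T1 ∪ T2 ∪ T3 ∪ hvf.toFinset := ⟨_, rfl⟩
  have hTa : ∀ i, ∀ P : Place k L, P.ord (t - algebraMap k L (a i)) ≠ 0 → P ∈ T := fun i P hP => by
    rw [hTd]; simp [hT1 i (Finset.mem_univ _) P hP]
  have hTb : ∀ j, ∀ P : Place k L, P.ord (x - algebraMap k L (b j)) ≠ 0 → P ∈ T := fun j P hP => by
    rw [hTd]; simp [hT2 j (Finset.mem_univ _) P hP]
  have hTt : ∀ P : Place k L, P.ord t ≠ 0 → P ∈ T := fun P hP => by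
    rw [hTd]; simp [hT3 0 (Finset.mem_univ _) P hP]
  have hTx : ∀ P : Place k L, P.ord x ≠ 0 → P ∈ T := fun P hP => by
    rw [hTd]; simp [hT3 1 (Finset.mem_univ _) P hP]
  have hTW : ∀ P : Place k L, P.ord (W k D t x) ≠ 0 → P ∈ T := fun P hP => by
    rw [hTd]; simp [hT3 2 (Finset.mem_univ _) P hP]
  have hTv : ∀ P : Place k L, vo P (der k L) ≠ 0 → P ∈ T := fun P hP => by
    rw [hTd]; simp [hP]
  have s1 := sum_pol t T hTt
  have s2 := sum_pol x T hTx
  have s3 := sum_con a t T hTa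
  have s4 := sum_con b x T hTb
  have s5 := sum_zer (t - algebraMap k L (a i₀)) T (hTa i₀)
  rw [hgt_sub_const] at s5
  have s6 := sum_ord_finset (W k D t x) T hTW
  have s7 := canDeg_finset (k := k) (K := L) der_ne T hTv
  have key : ∀ P ∈ T, -2 * (pol P t : ℚ) - 2 * pol P x +
      ((1 - 1 / n : ℚ) * (con a P t + con b P x) -
        2 * (1 - 1 / n) * zer P (t - algebraMap k L (a i₀))) + vo P (der k L) ≤
      P.ord (W k D t x) := by
    intro P _
    obtain ⟨h1, h2⟩ := ge_W ha hb P h t x (fun j _ => hdb j)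
    by_cases hi : 0 < P.ord (t - algebraMap k L (a i₀))
    · have h3 := h1.resolve_left hW
      have h4 : ((-2 * pol P t - 2 * pol P x + max (con b P x - 1) 0 + vo P (der k L) : ℤ) : ℚ) ≤
        P.ord (W k D t x) := by exact_mod_cast h3
      have h5 := con_eq ha hi
      have h6 : zer P (t - algebraMap k L (a i₀)) = con a P t := by
        rw [h5]; exact max_eq_left hi.le
      have h7 := arith2 hn (α := con a P t) (β := con b P x) (by omega) (con_nonneg _ _ _)
      rw [h6]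
      push_cast at h4 h7 ⊢
      linarith
    · have h3 := (h2 fun i hi' => hda i (by rintro rfl; exact hi hi')).resolve_left hW
      have h4 : ((-2 * pol P t - 2 * pol P x + max (con a P t + con b P x - 1) 0 +
        vo P (der k L) : ℤ) : ℚ) ≤ P.ord (W k D t x) := by exact_mod_cast h3
      have h5 : zer P (t - algebraMap k L (a i₀)) = 0 := max_eq_right (by omega)
      have h7 := arith hn (horb P)
      rw [h5]
      push_cast at h4 h7 ⊢
      linarith
  have hsum := Finset.sum_le_sum key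
  simp only [Finset.sum_add_distrib, Finset.sum_sub_distrib, ← Finset.mul_sum] at hsum
  have c1 : ∑ P ∈ T, (pol P t : ℚ) = hgt k t := by exact_mod_cast s1
  have c2 : ∑ P ∈ T, (pol P x : ℚ) = hgt k x := by exact_mod_cast s2
  have c3 : ∑ P ∈ T, (con a P t : ℚ) = q₁ * hgt k t := by exact_mod_cast s3
  have c4 : ∑ P ∈ T, (con b P x : ℚ) = q₂ * hgt k x := by exact_mod_cast s4
  have c5 : ∑ P ∈ T, (zer P (t - algebraMap k L (a i₀)) : ℚ) = hgt k t := by exact_mod_cast s5
  have c6 : ∑ P ∈ T, (P.ord (W k D t x) : ℚ) = 0 := by exact_mod_cast s6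
  have c7 : ∑ P ∈ T, (vo P (der k L) : ℚ) = - canDeg k L := by exact_mod_cast s7
  rw [c1, c2, c3, c4, c5, c6, c7] at hsum
  linarith

/-- the order of contact with the points `b j`, `j ∈ G` -/
noncomputable def conG {q : ℕ} (b : Fin q → k) (G : Finset (Fin q)) (P : Place k L) (f : L) : ℤ :=
  ∑ j ∈ G, zer P (f - algebraMap k L (b j))

theorem sum_conG {q : ℕ} (b : Fin q → k) (G : Finset (Fin q)) (f : L) (T : Finset (Place k L))
    (hT : ∀ i, ∀ P, P.ord (f - algebraMap k L (b i)) ≠ 0 → P ∈ T) :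
    ∑ P ∈ T, conG b G P f = G.card * hgt k f := by
  unfold conG
  rw [Finset.sum_comm]
  have h1 : ∀ i ∈ G, ∑ P ∈ T, zer P (f - algebraMap k L (b i)) = hgt k f := fun i _ => by
    rw [sum_zer _ T (hT i), hgt_sub_const]
  rw [Finset.sum_congr rfl h1, Finset.sum_const, nsmul_eq_mul]

theorem conG_nonneg {q : ℕ} (b : Fin q → k) (G : Finset (Fin q)) (P : Place k L) (f : L) :
    0 ≤ conG b G P f := Finset.sum_nonneg fun _ _ => zer_nonneg _ _

theorem conG_le {q : ℕ} (b : Fin q → k) (G : Finset (Fin q)) (P : Place k L) (f : L) :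
    conG b G P f ≤ con b P f :=
  Finset.sum_le_sum_of_subset_of_nonneg (Finset.subset_univ G) fun _ _ _ => zer_nonneg _ _

theorem conG_cases {q : ℕ} {b : Fin q → k} (hb : Function.Injective b) (G : Finset (Fin q))
    (P : Place k L) (f : L) :
    conG b G P f = 0 ∨ ∃ j ∈ G, 0 < P.ord (f - algebraMap k L (b j)) ∧
      conG b G P f = con b P f ∧ con b P f = P.ord (f - algebraMap k L (b j)) := by
  by_cases h : ∃ j ∈ G, 0 < P.ord (f - algebraMap k L (b j))
  · obtain ⟨j, hj, hj'⟩ := h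
    have h1 := con_eq hb hj'
    refine Or.inr ⟨j, hj, hj', le_antisymm (conG_le _ _ _ _) ?_, h1⟩
    rw [h1]
    have h2 : zer P (f - algebraMap k L (b j)) ≤ conG b G P f :=
      Finset.single_le_sum (f := fun j => zer P (f - algebraMap k L (b j)))
        (fun _ _ => zer_nonneg _ _) hj
    exact (le_max_left _ _).trans h2
  · push Not at h
    left
    exact Finset.sum_eq_zero fun j hj => max_eq_right (h j hj)

theorem arith3 {n : ℕ} (hn : 1 ≤ n) {α β : ℤ} (hα : 0 ≤ α) (hβ : 1 ≤ β) :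
    (1 - 1 / n : ℚ) * α - (1 - 1 / n) * β ≤ (max (α - 1) 0 : ℤ) := by
  have hn0 : (1 : ℚ) ≤ n := by exact_mod_cast hn
  have h1 : (0 : ℚ) ≤ 1 - 1 / n := by
    rw [sub_nonneg, div_le_one (by linarith)]; exact hn0
  have h2 : (0 : ℚ) ≤ 1 / n := by positivity
  have hβ' : (1 : ℚ) ≤ β := by exact_mod_cast hβ
  obtain ⟨μ, hμ⟩ : ∃ μ : ℚ, μ = 1 / n := ⟨_, rfl⟩
  rw [← hμ] at h1 h2 ⊢
  rcases lt_or_ge α 1 with h | h
  · have h3 : α = 0 := by omega
    rw [h3]
    rw [max_eq_right (by omega)]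
    push_cast
    nlinarith
  · rw [max_eq_left (by omega)]
    have h3 : (1 : ℚ) ≤ α := by exact_mod_cast h
    push_cast
    nlinarith

/-- The curve does not move with the points `b j`, `j ∈ G`. -/
theorem ineq_fix (ha : Function.Injective a) (hb : Function.Injective b) (hn : 1 ≤ n)
    (horb : ∀ P : Place k L, con a P t + con b P x = 0 ∨ (n : ℤ) ≤ con a P t + con b P x)
    (ht : Transcendental k t) (G : Finset (Fin q₂))
    (hfix : ∀ P : Place k L, 0 < conG b G P x → con a P t = 0 ∧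
      Ge P (-2 * pol P t + (con b P x - 1) + vo P (der k L)) (der k L t)) :
    ((1 - 1 / n : ℚ) * q₁ - 2) * hgt k t + (1 - 1 / n : ℚ) * (2 * G.card - q₂) * hgt k x ≤
      canDeg k L := by
  classical
  have hδ : der k L t ≠ 0 := der_ne_zero der_ne ht
  obtain ⟨T1, hT1⟩ := exists_supp (k := k) (Finset.univ : Finset (Fin q₁))
    fun i => t - algebraMap k L (a i)
  obtain ⟨T2, hT2⟩ := exists_supp (k := k) (Finset.univ : Finset (Fin q₂))
    fun j => x - algebraMap k L (b j)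
  obtain ⟨T3, hT3⟩ := exists_supp (k := k) (Finset.univ : Finset (Fin 2)) ![t, der k L t]
  have hvf := vo_finite (k := k) (K := L) der_ne
  obtain ⟨T, hTd⟩ : ∃ T, T = T1 ∪ T2 ∪ T3 ∪ hvf.toFinset := ⟨_, rfl⟩
  have hTa : ∀ i, ∀ P : Place k L, P.ord (t - algebraMap k L (a i)) ≠ 0 → P ∈ T := fun i P hP => by
    rw [hTd]; simp [hT1 i (Finset.mem_univ _) P hP]
  have hTb : ∀ j, ∀ P : Place k L, P.ord (x - algebraMap k L (b j)) ≠ 0 → P ∈ T := fun j P hP => by
    rw [hTd]; simp [hT2 j (Finset.mem_univ _) P hP]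
  have hTt : ∀ P : Place k L, P.ord t ≠ 0 → P ∈ T := fun P hP => by
    rw [hTd]; simp [hT3 0 (Finset.mem_univ _) P hP]
  have hTW : ∀ P : Place k L, P.ord (der k L t) ≠ 0 → P ∈ T := fun P hP => by
    rw [hTd]; simp [hT3 1 (Finset.mem_univ _) P hP]
  have hTv : ∀ P : Place k L, vo P (der k L) ≠ 0 → P ∈ T := fun P hP => by
    rw [hTd]; simp [hP]
  have s1 := sum_pol t T hTt
  have s3 := sum_con a t T hTa
  have s4 := sum_con b x T hTb
  have s5 := sum_conG b G x T hTb
  have s6 := sum_ord_finset (der k L t) T hTW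
  have s7 := canDeg_finset (k := k) (K := L) der_ne T hTv
  have key : ∀ P ∈ T, -2 * (pol P t : ℚ) + ((1 - 1 / n : ℚ) * con a P t +
      (1 - 1 / n : ℚ) * (2 * conG b G P x) - (1 - 1 / n : ℚ) * con b P x) +
      vo P (der k L) ≤ P.ord (der k L t) := by
    intro P _
    have h7 := arith hn (horb P)
    rcases conG_cases hb G P x with h0 | ⟨j, hj, hj', h0, -⟩
    · have h3 := (ge_der_con ha P t).resolve_left hδ
      have h4 : ((-2 * pol P t + max (con a P t - 1) 0 + vo P (der k L) : ℤ) : ℚ) ≤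
        P.ord (der k L t) := by exact_mod_cast h3
      rw [h0]
      rcases (con_nonneg b P x).eq_or_lt with h8 | h8
      · rw [← h8] at h7 ⊢
        rw [add_zero] at h7
        push_cast at h4 h7 ⊢
        linarith
      · have h9 := arith3 hn (con_nonneg a P t) (by omega : 1 ≤ con b P x)
        push_cast at h4 h9 ⊢
        linarith
    · have h8 : 0 < con b P x := by
        have := con_eq hb hj'
        omega
      obtain ⟨h1, h2⟩ := hfix P (by omega)
      have h3 := h2.resolve_left hδ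
      have h4 : ((-2 * pol P t + (con b P x - 1) + vo P (der k L) : ℤ) : ℚ) ≤
        P.ord (der k L t) := by exact_mod_cast h3
      rw [h0, h1]
      rw [h1, zero_add, max_eq_left (by omega)] at h7
      push_cast at h4 h7 ⊢
      linarith
  have hsum := Finset.sum_le_sum key
  simp only [Finset.sum_add_distrib, Finset.sum_sub_distrib, ← Finset.mul_sum] at hsum
  have c1 : ∑ P ∈ T, (pol P t : ℚ) = hgt k t := by exact_mod_cast s1
  have c3 : ∑ P ∈ T, (con a P t : ℚ) = q₁ * hgt k t := by exact_mod_cast s3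
  have c4 : ∑ P ∈ T, (con b P x : ℚ) = q₂ * hgt k x := by exact_mod_cast s4
  have c5 : ∑ P ∈ T, (conG b G P x : ℚ) = G.card * hgt k x := by exact_mod_cast s5
  have c6 : ∑ P ∈ T, (P.ord (der k L t) : ℚ) = 0 := by exact_mod_cast s6
  have c7 : ∑ P ∈ T, (vo P (der k L) : ℚ) = - canDeg k L := by exact_mod_cast s7
  rw [c1, c3, c4, c5, c6, c7] at hsum
  linarith

theorem fix_of_W (ha : Function.Injective a) (hb : Function.Injective b) (G : Finset (Fin q₂))
    (hder : ∀ j ∈ G, ∃ (d : Derivation ℤ k k) (D : Derivation ℤ L L), IsLift d D ∧ d (b j) = 1 ∧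
      (∀ i, d (a i) = 0) ∧ W k D t x = 0) (ht : Transcendental k t) (P : Place k L)
    (h : 0 < conG b G P x) : con a P t = 0 ∧
      Ge P (-2 * pol P t + (con b P x - 1) + vo P (der k L)) (der k L t) := by
  rcases conG_cases hb G P x with h0 | ⟨j, hj, hj', -, h1⟩
  · omega
  · obtain ⟨d, D, hD, hdb, hda, hW⟩ := hder j hj
    rw [h1]
    exact ge_of_W_eq ha P hD hj' hdb hda (der_ne_zero der_ne ht) hW

omit [CharZero k] [IsFF k L] in
theorem exists_const_of_alg {t : L} (ht : ¬ Transcendental k t) : ∃ c : k, t = algebraMap k L c := by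
  have h1 : IsAlgebraic k t := by
    by_contra hcon
    exact ht hcon
  have h2 := IsAlgClosed.degree_eq_one_of_irreducible k (minpoly.irreducible h1.isIntegral)
  obtain ⟨c, hc⟩ := minpoly.mem_range_of_degree_eq_one k t h2
  exact ⟨c, hc.symm⟩

omit [CharZero k] [IsAlgClosed k] [IsFF k L] in
theorem con_const {c : k} (P : Place k L) : con a P (algebraMap k L c) = 0 := by
  unfold con zer
  refine Finset.sum_eq_zero fun i _ => ?_
  rw [← map_sub]
  by_cases h : c - a i = 0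
  · rw [h, map_zero, P.ord_zero, max_self]
  · rw [P.ord_const h, max_self]

theorem hgt_const (c : k) : hgt k (algebraMap k L c) = 0 := by
  have h1 : ∀ P : Place k L, max (-P.ord (algebraMap k L c)) 0 = 0 := by
    intro P
    by_cases h : c = 0
    · rw [h, map_zero, P.ord_zero]; rfl
    · rw [P.ord_const h]; rfl
  unfold hgt
  simp only [h1, finsum_zero]

theorem conG_const {q : ℕ} (b : Fin q → k) (G : Finset (Fin q)) {c : k} (P : Place k L) :
    conG b G P (algebraMap k L c) = 0 :=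
  le_antisymm ((conG_le _ _ _ _).trans (con_const P).le) (conG_nonneg _ _ _ _)

/-- The main inequality, for one of the two factors. -/
theorem main_half (k₀ : Subfield k) (ha : Function.Injective a) (hb : Function.Injective b)
    (hn : 1 ≤ n) (G₁ : Finset (Fin q₁)) (G₂ : Finset (Fin q₂))
    (ha0 : ∀ i, i ∉ G₁ → a i ∈ k₀) (hb0 : ∀ j, j ∉ G₂ → b j ∈ k₀)
    (hab : AlgebraicIndependent k₀ (Sum.elim (fun i : G₁ => a i) (fun j : G₂ => b j)))
    (htx : Transcendental k t ∨ Transcendental k x)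
    (horb : ∀ P : Place k L, con a P t + con b P x = 0 ∨ (n : ℤ) ≤ con a P t + con b P x) :
    ((1 - 1 / n : ℚ) * q₁ - 2) * hgt k t +
      min ((1 - 1 / n : ℚ) * q₂ - 2 - 2 * (1 - 1 / n)) ((1 - 1 / n) * (2 * G₂.card - q₂)) *
      hgt k x ≤ canDeg k L := by
  classical
  have ht0 : (0 : ℚ) ≤ hgt k t := by exact_mod_cast hgt_nonneg t
  have hx0 : (0 : ℚ) ≤ hgt k x := by exact_mod_cast hgt_nonneg x
  have horb' : ∀ P : Place k L, con b P x + con a P t = 0 ∨ (n : ℤ) ≤ con b P x + con a P t :=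
    fun P => by rw [add_comm]; exact horb P
  have hm1 := min_le_left ((1 - 1 / n : ℚ) * q₂ - 2 - 2 * (1 - 1 / n))
    ((1 - 1 / n) * (2 * G₂.card - q₂))
  have hm2 := min_le_right ((1 - 1 / n : ℚ) * q₂ - 2 - 2 * (1 - 1 / n))
    ((1 - 1 / n) * (2 * G₂.card - q₂))
  obtain ⟨M, hM⟩ : ∃ M, M = min ((1 - 1 / n : ℚ) * q₂ - 2 - 2 * (1 - 1 / n))
    ((1 - 1 / n) * (2 * G₂.card - q₂)) := ⟨_, rfl⟩
  rw [← hM] at hm1 hm2 ⊢
  by_cases ht : Transcendental k t
  · have hdb : ∀ j ∈ G₂, ∃ (d : Derivation ℤ k k) (D : Derivation ℤ L L), IsLift d D ∧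
        d (b j) = 1 ∧ (∀ j', j' ≠ j → d (b j') = 0) ∧ (∀ i, d (a i) = 0) := by
      intro j hj
      obtain ⟨d, hd0, hd⟩ := exists_generic k₀ hab (Sum.inr ⟨j, hj⟩)
      obtain ⟨D, hD, -⟩ := exists_lift d ht
      refine ⟨d, D, hD, ?_, fun j' hj' => ?_, fun i => ?_⟩
      · have := hd (Sum.inr ⟨j, hj⟩); simpa using this
      · by_cases h : j' ∈ G₂
        · have := hd (Sum.inr ⟨j', h⟩); simpa [hj'] using this
        · exact hd0 _ (hb0 j' h)
      · by_cases h : i ∈ G₁
        · have := hd (Sum.inl ⟨i, h⟩); simpa using this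
        · exact hd0 _ (ha0 i h)
    by_cases hB : ∃ j ∈ G₂, ∃ (d : Derivation ℤ k k) (D : Derivation ℤ L L), IsLift d D ∧
        d (b j) = 1 ∧ (∀ j', j' ≠ j → d (b j') = 0) ∧ (∀ i, d (a i) = 0) ∧ W k D t x ≠ 0
    · obtain ⟨j, hj, d, D, hD, -, hdb2, hdb3, hW⟩ := hB
      have h2 := ineq_move hb ha hn horb' hdb2 hdb3 hD
        (by rw [W_swap]; exact neg_ne_zero.2 hW)
      have h3 := mul_le_mul_of_nonneg_right hm1 hx0
      linarith
    · push Not at hB
      have h1 := ineq_fix ha hb hn horb ht G₂ (fun P hP => fix_of_W ha hb G₂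
        (fun j hj => by
          obtain ⟨d, D, hD, h3, h4, h5⟩ := hdb j hj
          exact ⟨d, D, hD, h3, h5, hB j hj d D hD h3 h4 h5⟩) ht P hP)
      have h3 := mul_le_mul_of_nonneg_right hm2 hx0
      linarith
  · have hx := htx.resolve_left ht
    obtain ⟨c, rfl⟩ := exists_const_of_alg ht
    have h1 := ineq_fix hb ha hn horb' hx Finset.univ (fun P hP => by
      rw [conG_const] at hP; omega)
    have h4 : (0 : ℚ) ≤ 1 - 1 / n := by
      have hn0 : (1 : ℚ) ≤ n := by exact_mod_cast hn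
      rw [sub_nonneg, div_le_one (by linarith)]; exact hn0
    rw [hgt_const] at h1 ⊢
    have h3 := mul_le_mul_of_nonneg_right hm1 hx0
    have h5 := mul_nonneg h4 hx0
    push_cast at h1 ⊢
    linarith

end

end Pool.Agent.TH875.PQ
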