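import Pool.Agent.TH875.PQ.B

/-! Curves on `ℙ¹ × ℙ¹` with high contact with very general fibres, with weights and a boundary. -/

set_option autoImplicit false

open FF
open Pool.Agent.W603.LV Pool.Agent.W603.PV
open Pool.Agent.TH875.Vg

namespace Pool.Agent.TH875.PQ

section

variable {k : Type} [Field k] {L : Type} [Field L] [Algebra k L]

/-- the weighted order of contact with the points `b j`, `j ∈ G` -/
noncomputable def conW {q : ℕ} (w : Fin q → ℚ) (b : Fin q → k) (G : Finset (Fin q))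
    (P : Place k L) (f : L) : ℚ :=
  ∑ j ∈ G, w j * (zer P (f - algebraMap k L (b j)) : ℤ)

theorem conW_nonneg {q : ℕ} {w : Fin q → ℚ} (hw : ∀ j, 0 ≤ w j) (b : Fin q → k)
    (G : Finset (Fin q)) (P : Place k L) (f : L) : 0 ≤ conW w b G P f :=
  Finset.sum_nonneg fun j _ => mul_nonneg (hw j) (by exact_mod_cast zer_nonneg P _)

theorem conW_le {q : ℕ} {w : Fin q → ℚ} (hw : ∀ j, w j ≤ 1) (b : Fin q → k)
    (P : Place k L) (f : L) : conW w b Finset.univ P f ≤ con b P f := by
  unfold conW con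
  push_cast
  refine Finset.sum_le_sum fun j _ => ?_
  have h1 : (0 : ℚ) ≤ zer P (f - algebraMap k L (b j)) := by exact_mod_cast zer_nonneg P _
  nlinarith [hw j]

theorem le_conW {q : ℕ} {w : Fin q → ℚ} (hw : ∀ j, 1 / 2 ≤ w j) (b : Fin q → k)
    (P : Place k L) (f : L) : (con b P f : ℚ) ≤ 2 * conW w b Finset.univ P f := by
  unfold conW con
  rw [Finset.mul_sum]
  push_cast
  refine Finset.sum_le_sum fun j _ => ?_
  have h1 : (0 : ℚ) ≤ zer P (f - algebraMap k L (b j)) := by exact_mod_cast zer_nonneg P _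
  nlinarith [hw j]

theorem conW_eq {q : ℕ} {b : Fin q → k} (hb : Function.Injective b) (w : Fin q → ℚ)
    {G : Finset (Fin q)} {P : Place k L} {f : L} {j : Fin q} (hj : j ∈ G)
    (h : 0 < P.ord (f - algebraMap k L (b j))) :
    conW w b G P f = w j * (con b P f : ℤ) := by
  have h1 := con_eq hb h
  have h2 : zer P (f - algebraMap k L (b j)) = con b P f := by
    rw [h1]; exact max_eq_left h.le
  unfold conW
  rw [Finset.sum_eq_single_of_mem j hj, h2]
  intro i _ hi
  have h3 : zer P (f - algebraMap k L (b i)) = 0 := by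
    have h4 : zer P (f - algebraMap k L (b i)) + zer P (f - algebraMap k L (b j)) ≤
        con b P f := by
      unfold con
      rw [← Finset.sum_pair (f := fun i => zer P (f - algebraMap k L (b i))) hi]
      exact Finset.sum_le_sum_of_subset_of_nonneg (Finset.subset_univ _)
        fun _ _ _ => zer_nonneg _ _
    have := zer_nonneg P (f - algebraMap k L (b i))
    omega
  rw [h3]
  simp

theorem conW_zero {q : ℕ} {b : Fin q → k} (w : Fin q → ℚ) {G : Finset (Fin q)} {P : Place k L}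
    {f : L} (h : ∀ j ∈ G, zer P (f - algebraMap k L (b j)) = 0) : conW w b G P f = 0 := by
  unfold conW
  refine Finset.sum_eq_zero fun j hj => ?_
  rw [h j hj]
  simp

theorem zer_of_conG {q : ℕ} {b : Fin q → k} {G : Finset (Fin q)} {P : Place k L}
    {f : L} (h : conG b G P f = 0) : ∀ j ∈ G, zer P (f - algebraMap k L (b j)) = 0 :=
  (Finset.sum_eq_zero_iff_of_nonneg fun _ _ => zer_nonneg _ _).1 h

theorem conG_univ {q : ℕ} (b : Fin q → k) (P : Place k L) (f : L) :
    conG b Finset.univ P f = con b P f := rfl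

end

section

variable {k : Type} [Field k] [CharZero k] [IsAlgClosed k] {L : Type} [Field L] [Algebra k L]
  [IsFF k L]

theorem sum_conW {q : ℕ} (w : Fin q → ℚ) (b : Fin q → k) (G : Finset (Fin q)) (f : L)
    (T : Finset (Place k L))
    (hT : ∀ i, ∀ P, P.ord (f - algebraMap k L (b i)) ≠ 0 → P ∈ T) :
    ∑ P ∈ T, conW w b G P f = (∑ j ∈ G, w j) * hgt k f := by
  unfold conW
  rw [Finset.sum_comm, Finset.sum_mul]
  refine Finset.sum_congr rfl fun i _ => ?_
  rw [← Finset.mul_sum]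
  congr 1
  have h1 := sum_zer _ T (hT i)
  rw [hgt_sub_const] at h1
  exact_mod_cast h1

variable {q₁ q₂ : ℕ} {a : Fin q₁ → k} {b : Fin q₂ → k} {t x : L}
  {w : Fin q₁ → ℚ} {w' : Fin q₂ → ℚ}

/-- The orbifold condition. -/
def Orb (w : Fin q₁ → ℚ) (w' : Fin q₂ → ℚ) (a : Fin q₁ → k) (b : Fin q₂ → k)
    (S : Finset (Place k L)) (t x : L) : Prop :=
  ∀ P : Place k L, P ∉ S → con a P t + con b P x = 0 ∨
    conW w a Finset.univ P t + conW w' b Finset.univ P x ≤ con a P t + con b P x - 1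

omit [CharZero k] [IsAlgClosed k] [IsFF k L] in
theorem Orb.symm {S : Finset (Place k L)} (h : Orb w w' a b S t x) : Orb w' w b a S x t := by
  intro P hP
  rcases h P hP with h | h
  · left; omega
  · right; linarith

/-- The curve moves with the point `a i₀`. -/
theorem ineq_moveL (ha : Function.Injective a) (hb : Function.Injective b)
    (hw : ∀ i, 1 / 2 ≤ w i) (hw1 : ∀ i, w i ≤ 1) (hw' : ∀ j, 1 / 2 ≤ w' j) (hw1' : ∀ j, w' j ≤ 1)
    (S : Finset (Place k L)) (horb : Orb w w' a b S t x)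
    {i₀ : Fin q₁} {d : Derivation ℤ k k} (hda : ∀ i, i ≠ i₀ → d (a i) = 0)
    (hdb : ∀ j, d (b j) = 0) {D : Derivation ℤ L L} (h : IsLift d D) (hW : W k D t x ≠ 0) :
    ((∑ i, w i) - 2) * hgt k t + ((∑ j, w' j) - 2) * hgt k x ≤
      canDeg k L + S.card + 2 * w i₀ * hgt k t := by
  classical
  obtain ⟨T1, hT1⟩ := exists_supp (k := k) (Finset.univ : Finset (Fin q₁))
    fun i => t - algebraMap k L (a i)
  obtain ⟨T2, hT2⟩ := exists_supp (k := k) (Finset.univ : Finset (Fin q₂))
    fun j => x - algebraMap k L (b j)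
  obtain ⟨T3, hT3⟩ := exists_supp (k := k) (Finset.univ : Finset (Fin 3)) ![t, x, W k D t x]
  have hvf := vo_finite (k := k) (K := L) der_ne
  obtain ⟨T, hTd⟩ : ∃ T, T = T1 ∪ T2 ∪ T3 ∪ hvf.toFinset ∪ S := ⟨_, rfl⟩
  have hTa : ∀ i, ∀ P : Place k L, P.ord (t - algebraMap k L (a i)) ≠ 0 → P ∈ T := fun i P hP => by
    rw [hTd]; simp [hT1 i (Finset.mem_univ _) P hP]
  have hTb : ∀ j, ∀ P : Place k L, P.ord (x - algebraMap k L (b j)) ≠ 0 → P ∈ T := fun j P hP => by
    rw [hTd]; simp [hT2 j (Finset.mem_univ _) P hP]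
  have hTt : ∀ P : Place k L, P.ord t ≠ 0 → P ∈ T := fun P hP => by
    rw [hTd]; simp [hT3 0 (Finset.mem_univ _) P hP]
  have hTx : ∀ P : Place k L, P.ord x ≠ 0 → P ∈ T := fun P hP => by
    rw [hTd]; simp [hT3 1 (Finset.mem_univ _) P hP]
  have hTW : ∀ P : Place k L, P.ord (W k D t x) ≠ 0 → P ∈ T := fun P hP => by
    rw [hTd]; simp [hT3 2 (Finset.mem_univ _) P hP]
  have hTv : ∀ P : Place k L, vo P (der k L) ≠ 0 → P ∈ T := fun P hP => by
    rw [hTd]; simp [hP]
  have hTS : S ⊆ T := by rw [hTd]; exact Finset.subset_union_right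
  have s1 := sum_pol t T hTt
  have s2 := sum_pol x T hTx
  have c3 := sum_conW w a Finset.univ t T hTa
  have c4 := sum_conW w' b Finset.univ x T hTb
  have s5 := sum_zer (t - algebraMap k L (a i₀)) T (hTa i₀)
  rw [hgt_sub_const] at s5
  have s6 := sum_ord_finset (W k D t x) T hTW
  have s7 := canDeg_finset (k := k) (K := L) der_ne T hTv
  have key : ∀ P ∈ T, -2 * (pol P t : ℚ) - 2 * pol P x +
      ((conW w a Finset.univ P t + conW w' b Finset.univ P x) -
        2 * w i₀ * zer P (t - algebraMap k L (a i₀))) + vo P (der k L) ≤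
      P.ord (W k D t x) + (if P ∈ S then 1 else 0) := by
    intro P _
    obtain ⟨h1, h2⟩ := ge_W ha hb P h t x (fun j _ => hdb j)
    have hα := con_nonneg a P t
    have hβ := con_nonneg b P x
    have wa1 := conW_le hw1 a P t
    have wb1 := conW_le hw1' b P x
    have wa0 := conW_nonneg (fun i => (by linarith [hw i] : 0 ≤ w i)) a Finset.univ P t
    have wb0 := conW_nonneg (fun i => (by linarith [hw' i] : 0 ≤ w' i)) b Finset.univ P x
    by_cases hi : 0 < P.ord (t - algebraMap k L (a i₀))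
    · have h3 := h1.resolve_left hW
      have h4 : ((-2 * pol P t - 2 * pol P x + max (con b P x - 1) 0 + vo P (der k L) : ℤ) : ℚ) ≤
        P.ord (W k D t x) := by exact_mod_cast h3
      have h5 := con_eq ha hi
      have h6 : zer P (t - algebraMap k L (a i₀)) = con a P t := by
        rw [h5]; exact max_eq_left hi.le
      have h8 := conW_eq ha w (Finset.mem_univ i₀) hi
      have hα1 : (1 : ℚ) ≤ con a P t := by rw [h5]; exact_mod_cast hi
      have h7 : conW w' b Finset.univ P x - w i₀ * con a P t ≤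
          (max (con b P x - 1) 0 : ℤ) + (if P ∈ S then 1 else 0) := by
        by_cases hS : P ∈ S
        · rw [if_pos hS]
          have h9 : (con b P x : ℚ) - 1 ≤ (max (con b P x - 1) 0 : ℤ) := by
            exact_mod_cast le_max_left _ _
          have h10 : 0 ≤ w i₀ * con a P t := by
            have := hw i₀
            positivity
          linarith
        · rw [if_neg hS, add_zero]
          rcases hβ.eq_or_lt with h9 | h9
          · have h10 : conW w' b Finset.univ P x = 0 :=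
              conW_zero w' (zer_of_conG (by rw [conG_univ]; exact h9.symm))
            rw [h10, ← h9]
            have h11 : 0 ≤ w i₀ * con a P t := by
              have := hw i₀
              positivity
            simpa using h11
          · rcases horb P hS with h10 | h10
            · omega
            · rw [h8] at h10
              rw [max_eq_left (by omega)]
              push_cast at h10 ⊢
              have := hw i₀
              nlinarith
      rw [h6, h8]
      push_cast at h4 h7 ⊢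
      linarith
    · have h3 := (h2 fun i hi' => hda i (by rintro rfl; exact hi hi')).resolve_left hW
      have h4 : ((-2 * pol P t - 2 * pol P x + max (con a P t + con b P x - 1) 0 +
        vo P (der k L) : ℤ) : ℚ) ≤ P.ord (W k D t x) := by exact_mod_cast h3
      have h5 : zer P (t - algebraMap k L (a i₀)) = 0 := max_eq_right (by omega)
      have h7 : conW w a Finset.univ P t + conW w' b Finset.univ P x ≤
          (max (con a P t + con b P x - 1) 0 : ℤ) + (if P ∈ S then 1 else 0) := by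
        have h9 : (con a P t + con b P x : ℚ) - 1 ≤ (max (con a P t + con b P x - 1) 0 : ℤ) := by
          exact_mod_cast le_max_left _ _
        by_cases hS : P ∈ S
        · rw [if_pos hS]
          linarith
        · rw [if_neg hS, add_zero]
          rcases horb P hS with h10 | h10
          · have h11 : (0 : ℚ) ≤ (max (con a P t + con b P x - 1) 0 : ℤ) := by
              exact_mod_cast le_max_right _ _
            have h12 : (con a P t : ℚ) + con b P x = 0 := by exact_mod_cast h10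
            linarith
          · linarith
      rw [h5]
      push_cast at h4 h7 ⊢
      linarith
  have hsum := Finset.sum_le_sum key
  simp only [Finset.sum_add_distrib, Finset.sum_sub_distrib, ← Finset.mul_sum] at hsum
  have c1 : ∑ P ∈ T, (pol P t : ℚ) = hgt k t := by exact_mod_cast s1
  have c2 : ∑ P ∈ T, (pol P x : ℚ) = hgt k x := by exact_mod_cast s2
  have c5 : ∑ P ∈ T, (zer P (t - algebraMap k L (a i₀)) : ℚ) = hgt k t := by exact_mod_cast s5
  have c6 : ∑ P ∈ T, (P.ord (W k D t x) : ℚ) = 0 := by exact_mod_cast s6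
  have c7 : ∑ P ∈ T, (vo P (der k L) : ℚ) = - canDeg k L := by exact_mod_cast s7
  have c8 : ∑ P ∈ T, (if P ∈ S then (1 : ℚ) else 0) = S.card := by
    rw [← Finset.sum_filter, Finset.filter_mem_eq_inter, Finset.inter_eq_right.2 hTS]
    simp
  rw [c1, c2, c3, c4, c5, c6, c7, c8] at hsum
  linarith

/-- The curve does not move with the points `b j`, `j ∈ G`. -/
theorem ineq_fixL (ha : Function.Injective a) (hb : Function.Injective b)
    (hw1 : ∀ i, w i ≤ 1) (hw' : ∀ j, 1 / 2 ≤ w' j) (hw1' : ∀ j, w' j ≤ 1)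
    (S : Finset (Place k L)) (horb : Orb w w' a b S t x)
    (ht : Transcendental k t) (G : Finset (Fin q₂))
    (hfix : ∀ P : Place k L, 0 < conG b G P x → con a P t = 0 ∧
      Ge P (-2 * pol P t + (con b P x - 1) + vo P (der k L)) (der k L t)) :
    ((∑ i, w i) - 2) * hgt k t + (2 * (∑ j ∈ G, w' j) - ∑ j, w' j) * hgt k x ≤
      canDeg k L + S.card := by
  classical
  have hδ : der k L t ≠ 0 := der_ne_zero der_ne ht
  obtain ⟨T1, hT1⟩ := exists_supp (k := k) (Finset.univ : Finset (Fin q₁))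
    fun i => t - algebraMap k L (a i)
  obtain ⟨T2, hT2⟩ := exists_supp (k := k) (Finset.univ : Finset (Fin q₂))
    fun j => x - algebraMap k L (b j)
  obtain ⟨T3, hT3⟩ := exists_supp (k := k) (Finset.univ : Finset (Fin 2)) ![t, der k L t]
  have hvf := vo_finite (k := k) (K := L) der_ne
  obtain ⟨T, hTd⟩ : ∃ T, T = T1 ∪ T2 ∪ T3 ∪ hvf.toFinset ∪ S := ⟨_, rfl⟩
  have hTa : ∀ i, ∀ P : Place k L, P.ord (t - algebraMap k L (a i)) ≠ 0 → P ∈ T := fun i P hP => by
    rw [hTd]; simp [hT1 i (Finset.mem_univ _) P hP]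
  have hTb : ∀ j, ∀ P : Place k L, P.ord (x - algebraMap k L (b j)) ≠ 0 → P ∈ T := fun j P hP => by
    rw [hTd]; simp [hT2 j (Finset.mem_univ _) P hP]
  have hTt : ∀ P : Place k L, P.ord t ≠ 0 → P ∈ T := fun P hP => by
    rw [hTd]; simp [hT3 0 (Finset.mem_univ _) P hP]
  have hTW : ∀ P : Place k L, P.ord (der k L t) ≠ 0 → P ∈ T := fun P hP => by
    rw [hTd]; simp [hT3 1 (Finset.mem_univ _) P hP]
  have hTv : ∀ P : Place k L, vo P (der k L) ≠ 0 → P ∈ T := fun P hP => by
    rw [hTd]; simp [hP]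
  have hTS : S ⊆ T := by rw [hTd]; exact Finset.subset_union_right
  have s1 := sum_pol t T hTt
  have c3 := sum_conW w a Finset.univ t T hTa
  have c4 := sum_conW w' b Finset.univ x T hTb
  have c5 := sum_conW w' b G x T hTb
  have s6 := sum_ord_finset (der k L t) T hTW
  have s7 := canDeg_finset (k := k) (K := L) der_ne T hTv
  have key : ∀ P ∈ T, -2 * (pol P t : ℚ) + (conW w a Finset.univ P t +
      2 * conW w' b G P x - conW w' b Finset.univ P x) +
      vo P (der k L) ≤ P.ord (der k L t) + (if P ∈ S then 1 else 0) := by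
    intro P _
    have hα := con_nonneg a P t
    have hβ := con_nonneg b P x
    have wa1 := conW_le hw1 a P t
    have wb1 := conW_le hw1' b P x
    have wb2 := le_conW hw' b P x
    have wb0 := conW_nonneg (fun i => (by linarith [hw' i] : 0 ≤ w' i)) b Finset.univ P x
    rcases conG_cases hb G P x with h0 | ⟨j, hj, hj', h0, -⟩
    · have h3 := (ge_der_con ha P t).resolve_left hδ
      have h4 : ((-2 * pol P t + max (con a P t - 1) 0 + vo P (der k L) : ℤ) : ℚ) ≤
        P.ord (der k L t) := by exact_mod_cast h3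
      have h5 : conW w' b G P x = 0 := conW_zero w' (zer_of_conG h0)
      have h7 : conW w a Finset.univ P t - conW w' b Finset.univ P x ≤
          (max (con a P t - 1) 0 : ℤ) + (if P ∈ S then 1 else 0) := by
        have h9 : (con a P t : ℚ) - 1 ≤ (max (con a P t - 1) 0 : ℤ) := by
          exact_mod_cast le_max_left _ _
        have h11 : (0 : ℚ) ≤ (max (con a P t - 1) 0 : ℤ) := by
          exact_mod_cast le_max_right _ _
        by_cases hS : P ∈ S
        · rw [if_pos hS]
          linarith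
        · rw [if_neg hS, add_zero]
          rcases hα.eq_or_lt with h12 | h12
          · have h10 : conW w a Finset.univ P t = 0 :=
              conW_zero w (zer_of_conG (by rw [conG_univ]; exact h12.symm))
            linarith
          · rcases horb P hS with h10 | h10
            · omega
            · linarith
      rw [h5]
      push_cast at h4 h7 ⊢
      linarith
    · have h8 : 0 < con b P x := by
        have := con_eq hb hj'
        omega
      obtain ⟨h1, h2⟩ := hfix P (by omega)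
      have h3 := h2.resolve_left hδ
      have h4 : ((-2 * pol P t + (con b P x - 1) + vo P (der k L) : ℤ) : ℚ) ≤
        P.ord (der k L t) := by exact_mod_cast h3
      have h5 := conW_eq hb w' hj hj'
      have h6 := conW_eq hb w' (Finset.mem_univ j) hj'
      have h10 : conW w a Finset.univ P t = 0 :=
        conW_zero w (zer_of_conG (by rw [conG_univ]; exact h1))
      have h7 : conW w' b Finset.univ P x ≤ con b P x - 1 + (if P ∈ S then 1 else 0) := by
        by_cases hS : P ∈ S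
        · rw [if_pos hS]
          linarith
        · rw [if_neg hS, add_zero]
          rcases horb P hS with h11 | h11
          · omega
          · rw [h10, h1] at h11
            push_cast at h11
            linarith
      rw [h10, h5, ← h6]
      push_cast at h4 h7 ⊢
      linarith
  have hsum := Finset.sum_le_sum key
  simp only [Finset.sum_add_distrib, Finset.sum_sub_distrib, ← Finset.mul_sum] at hsum
  have c1 : ∑ P ∈ T, (pol P t : ℚ) = hgt k t := by exact_mod_cast s1
  have c6 : ∑ P ∈ T, (P.ord (der k L t) : ℚ) = 0 := by exact_mod_cast s6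
  have c7 : ∑ P ∈ T, (vo P (der k L) : ℚ) = - canDeg k L := by exact_mod_cast s7
  have c8 : ∑ P ∈ T, (if P ∈ S then (1 : ℚ) else 0) = S.card := by
    rw [← Finset.sum_filter, Finset.filter_mem_eq_inter, Finset.inter_eq_right.2 hTS]
    simp
  rw [c1, c3, c4, c5, c6, c7, c8] at hsum
  linarith

/-- The main inequality, for one of the two factors. -/
theorem main_halfL (k₀ : Subfield k) (ha : Function.Injective a) (hb : Function.Injective b)
    (hw : ∀ i, 1 / 2 ≤ w i) (hw1 : ∀ i, w i ≤ 1) (hw' : ∀ j, 1 / 2 ≤ w' j) (hw1' : ∀ j, w' j ≤ 1)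
    (G₁ : Finset (Fin q₁)) (G₂ : Finset (Fin q₂))
    (ha0 : ∀ i, i ∉ G₁ → a i ∈ k₀) (hb0 : ∀ j, j ∉ G₂ → b j ∈ k₀)
    (hab : AlgebraicIndependent k₀ (Sum.elim (fun i : G₁ => a i) (fun j : G₂ => b j)))
    (htx : Transcendental k t ∨ Transcendental k x)
    (S : Finset (Place k L)) (horb : Orb w w' a b S t x) {μ : ℚ} (hμ0 : 0 ≤ μ)
    (hμ : ∀ j ∈ G₂, w' j ≤ μ) :
    ((∑ i, w i) - 2) * hgt k t +
      min ((∑ j, w' j) - 2 - 2 * μ) (2 * (∑ j ∈ G₂, w' j) - ∑ j, w' j) *
      hgt k x ≤ canDeg k L + S.card := by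
  classical
  have ht0 : (0 : ℚ) ≤ hgt k t := by exact_mod_cast hgt_nonneg t
  have hx0 : (0 : ℚ) ≤ hgt k x := by exact_mod_cast hgt_nonneg x
  have hm1 := min_le_left ((∑ j, w' j) - 2 - 2 * μ) (2 * (∑ j ∈ G₂, w' j) - ∑ j, w' j)
  have hm2 := min_le_right ((∑ j, w' j) - 2 - 2 * μ) (2 * (∑ j ∈ G₂, w' j) - ∑ j, w' j)
  obtain ⟨M, hM⟩ : ∃ M, M = min ((∑ j, w' j) - 2 - 2 * μ)
    (2 * (∑ j ∈ G₂, w' j) - ∑ j, w' j) := ⟨_, rfl⟩
  rw [← hM] at hm1 hm2 ⊢
  by_cases ht : Transcendental k t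
  · have hdb : ∀ j ∈ G₂, ∃ (d : Derivation ℤ k k) (D : Derivation ℤ L L), IsLift d D ∧
        d (b j) = 1 ∧ (∀ j', j' ≠ j → d (b j') = 0) ∧ (∀ i, d (a i) = 0) := by
      intro j hj
      obtain ⟨d, hd0, hd⟩ := exists_generic k₀ hab (Sum.inr ⟨j, hj⟩)
      obtain ⟨D, hD, -⟩ := exists_lift d ht
      refine ⟨d, D, hD, ?_, fun j' hj' => ?_, fun i => ?_⟩
      · have := hd (Sum.inr ⟨j, hj⟩); simpa using this
      · by_cases h : j' ∈ G₂
        · have := hd (Sum.inr ⟨j', h⟩); simpa [hj'] using this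
        · exact hd0 _ (hb0 j' h)
      · by_cases h : i ∈ G₁
        · have := hd (Sum.inl ⟨i, h⟩); simpa using this
        · exact hd0 _ (ha0 i h)
    by_cases hB : ∃ j ∈ G₂, ∃ (d : Derivation ℤ k k) (D : Derivation ℤ L L), IsLift d D ∧
        d (b j) = 1 ∧ (∀ j', j' ≠ j → d (b j') = 0) ∧ (∀ i, d (a i) = 0) ∧ W k D t x ≠ 0
    · obtain ⟨j, hj, d, D, hD, -, hdb2, hdb3, hW⟩ := hB
      have h2 := ineq_moveL hb ha hw' hw1' hw hw1 S horb.symm hdb2 hdb3 hD
        (by rw [W_swap]; exact neg_ne_zero.2 hW)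
      have h3 := mul_le_mul_of_nonneg_right hm1 hx0
      have h4 := mul_le_mul_of_nonneg_right (hμ j hj) hx0
      linarith
    · push Not at hB
      have h1 := ineq_fixL ha hb hw1 hw' hw1' S horb ht G₂ (fun P hP => fix_of_W ha hb G₂
        (fun j hj => by
          obtain ⟨d, D, hD, h3, h4, h5⟩ := hdb j hj
          exact ⟨d, D, hD, h3, h5, hB j hj d D hD h3 h4 h5⟩) ht P hP)
      have h3 := mul_le_mul_of_nonneg_right hm2 hx0
      linarith
  · have hx := htx.resolve_left ht
    obtain ⟨c, rfl⟩ := exists_const_of_alg ht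
    have h1 := ineq_fixL hb ha hw1' hw hw1 S horb.symm hx Finset.univ (fun P hP => by
      rw [conG_const] at hP; omega)
    rw [hgt_const] at h1 ⊢
    have h3 := mul_le_mul_of_nonneg_right hm1 hx0
    have h5 := mul_nonneg hμ0 hx0
    push_cast at h1 ⊢
    linarith

/-- Both inequalities. -/
theorem main_both (k₀ : Subfield k) (ha : Function.Injective a) (hb : Function.Injective b)
    (hw : ∀ i, 1 / 2 ≤ w i) (hw1 : ∀ i, w i ≤ 1) (hw' : ∀ j, 1 / 2 ≤ w' j) (hw1' : ∀ j, w' j ≤ 1)
    (G₁ : Finset (Fin q₁)) (G₂ : Finset (Fin q₂))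
    (ha0 : ∀ i, i ∉ G₁ → a i ∈ k₀) (hb0 : ∀ j, j ∉ G₂ → b j ∈ k₀)
    (hab : AlgebraicIndependent k₀ (Sum.elim (fun i : G₁ => a i) (fun j : G₂ => b j)))
    (htx : Transcendental k t ∨ Transcendental k x)
    (S : Finset (Place k L)) (horb : Orb w w' a b S t x) {μ₁ μ₂ : ℚ} (hμ₁ : 0 ≤ μ₁)
    (hμ₂ : 0 ≤ μ₂) (hμ₁' : ∀ i ∈ G₁, w i ≤ μ₁) (hμ₂' : ∀ j ∈ G₂, w' j ≤ μ₂) :
    ((∑ i, w i) - 2) * hgt k t +
      min ((∑ j, w' j) - 2 - 2 * μ₂) (2 * (∑ j ∈ G₂, w' j) - ∑ j, w' j) *
      hgt k x ≤ canDeg k L + S.card ∧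
    ((∑ j, w' j) - 2) * hgt k x +
      min ((∑ i, w i) - 2 - 2 * μ₁) (2 * (∑ i ∈ G₁, w i) - ∑ i, w i) *
      hgt k t ≤ canDeg k L + S.card := by
  refine ⟨main_halfL k₀ ha hb hw hw1 hw' hw1' G₁ G₂ ha0 hb0 hab htx S horb hμ₂ hμ₂', ?_⟩
  refine main_halfL k₀ hb ha hw' hw1' hw hw1 G₂ G₁ hb0 ha0 ?_ htx.symm S horb.symm hμ₁ hμ₁'
  have h1 := hab.comp Sum.swap Sum.swap_leftInverse.injective
  convert h1 using 1
  funext y
  rcases y with y | y <;> rfl

omit [CharZero k] [IsAlgClosed k] [IsFF k L] in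
theorem ord_prodQ {A : Type} (s : Finset A) (P : Place k L) (f : A → L) (h : ∀ a ∈ s, f a ≠ 0) :
    P.ord (∏ a ∈ s, f a) = ∑ a ∈ s, P.ord (f a) := by
  classical
  induction s using Finset.induction_on with
  | empty => simp [P.ord_one]
  | insert a s ha ih =>
    rw [Finset.prod_insert ha, Finset.sum_insert ha, P.ord_mul (h a (Finset.mem_insert_self a s))
      (Finset.prod_ne_zero_iff.2 fun b hb => h b (Finset.mem_insert_of_mem hb)),
      ih fun b hb => h b (Finset.mem_insert_of_mem hb)]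

omit [CharZero k] [IsAlgClosed k] [IsFF k L] in
theorem ord_sub_const {q : ℕ} (a : Fin q → k) (t : L) (P : Place k L) (i : Fin q) :
    P.ord (t - algebraMap k L (a i)) = zer P (t - algebraMap k L (a i)) - pol P t := by
  rw [← pol_sub_const P t (a i)]
  unfold zer pol
  rcases le_total 0 (P.ord (t - algebraMap k L (a i))) with h4 | h4
  · rw [max_eq_left h4, max_eq_right (by linarith)]; ring
  · rw [max_eq_right h4, max_eq_left (by linarith)]; ring

omit [CharZero k] [IsAlgClosed k] [IsFF k L] in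
theorem ord_prodP {q : ℕ} (a : Fin q → k) (m : Fin q → ℕ) (t : L) (P : Place k L)
    (h : (∏ i, (t - algebraMap k L (a i)) ^ m i) ≠ 0) :
    P.ord (∏ i, (t - algebraMap k L (a i)) ^ m i) =
      ∑ i, m i * zer P (t - algebraMap k L (a i)) - (∑ i, m i : ℕ) * pol P t := by
  rw [ord_prodQ _ P _ (fun i hi => Finset.prod_ne_zero_iff.1 h i hi)]
  have h3 : ∀ i ∈ (Finset.univ : Finset (Fin q)), P.ord ((t - algebraMap k L (a i)) ^ m i) =
      m i * zer P (t - algebraMap k L (a i)) - m i * pol P t := by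
    intro i _
    rw [P.ord_pow, ord_sub_const a t P i]
    ring
  rw [Finset.sum_congr rfl h3, Finset.sum_sub_distrib, ← Finset.sum_mul]
  push_cast
  rfl

omit [CharZero k] [IsAlgClosed k] [IsFF k L] in
/-- On the surface `z ^ n = ∏ (t - a i) ^ m i * ∏ (x - b j) ^ m' j`. -/
theorem dvd_con {n : ℕ} {m : Fin q₁ → ℕ} {m' : Fin q₂ → ℕ} (h1 : n ∣ ∑ i, m i)
    (h2 : n ∣ ∑ j, m' j) {z : L} (hz : z ≠ 0)
    (e : z ^ n = (∏ i, (t - algebraMap k L (a i)) ^ m i) *
      ∏ j, (x - algebraMap k L (b j)) ^ m' j) (P : Place k L) :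
    (n : ℤ) ∣ ∑ i, m i * zer P (t - algebraMap k L (a i)) +
      ∑ j, m' j * zer P (x - algebraMap k L (b j)) := by
  have hn0 : z ^ n ≠ 0 := pow_ne_zero _ hz
  have h3 : (∏ i, (t - algebraMap k L (a i)) ^ m i) ≠ 0 := by
    intro h; rw [h, zero_mul] at e; exact hn0 e
  have h4 : (∏ j, (x - algebraMap k L (b j)) ^ m' j) ≠ 0 := by
    intro h; rw [h, mul_zero] at e; exact hn0 e
  have h5 : P.ord (z ^ n) = n * P.ord z := P.ord_pow z n
  rw [e, P.ord_mul h3 h4, ord_prodP a m t P h3, ord_prodP b m' x P h4] at h5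
  obtain ⟨r, hr⟩ := h1
  obtain ⟨s, hs⟩ := h2
  have h7 : ((∑ i, m i : ℕ) : ℤ) = n * r := by exact_mod_cast hr
  have h8 : ((∑ j, m' j : ℕ) : ℤ) = n * s := by exact_mod_cast hs
  rw [h7, h8] at h5
  exact ⟨P.ord z + r * pol P t + s * pol P x, by linarith⟩

omit [CharZero k] [IsAlgClosed k] [IsFF k L] in
theorem sum_zer_eq {q : ℕ} {b : Fin q → k} (hb : Function.Injective b) (m : Fin q → ℕ)
    {P : Place k L} {f : L} {j : Fin q} (h : 0 < P.ord (f - algebraMap k L (b j))) :
    ∑ i, (m i : ℤ) * zer P (f - algebraMap k L (b i)) = m j * con b P f := by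
  have h1 := conW_eq hb (fun i => (m i : ℚ)) (Finset.mem_univ j) h
  unfold conW at h1
  beta_reduce at h1
  exact_mod_cast h1

omit [CharZero k] [IsAlgClosed k] [IsFF k L] in
theorem sum_zer_zero {q : ℕ} {b : Fin q → k} (m : Fin q → ℕ) {P : Place k L} {f : L}
    (h : con b P f = 0) : ∑ i, (m i : ℤ) * zer P (f - algebraMap k L (b i)) = 0 := by
  refine Finset.sum_eq_zero fun i _ => ?_
  rw [zer_of_conG (G := Finset.univ) (by rw [conG_univ]; exact h) i (Finset.mem_univ i), mul_zero]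

omit [CharZero k] [IsAlgClosed k] [IsFF k L] in
/-- the weight -/
theorem orb_of_pow (ha : Function.Injective a) (hb : Function.Injective b) {n : ℕ}
    {m : Fin q₁ → ℕ} {m' : Fin q₂ → ℕ} (h1 : n ∣ ∑ i, m i)
    (h2 : n ∣ ∑ j, m' j) {z : L} (hz : z ≠ 0)
    (e : z ^ n = (∏ i, (t - algebraMap k L (a i)) ^ m i) *
      ∏ j, (x - algebraMap k L (b j)) ^ m' j) {S : Finset (Place k L)} {e₁ : Fin q₁ → ℕ}
    {e₂ : Fin q₂ → ℕ} (hS₁ : ∀ P, P ∉ S → ∀ i, e₁ i = 0 → P.ord (t - algebraMap k L (a i)) ≤ 0)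
    (hS₂ : ∀ P, P ∉ S → ∀ j, e₂ j = 0 → P.ord (x - algebraMap k L (b j)) ≤ 0)
    (C1 : ∀ i (α : ℕ), 0 < α → n ∣ m i * α → e₁ i ≤ α)
    (C2 : ∀ j (β : ℕ), 0 < β → n ∣ m' j * β → e₂ j ≤ β)
    (C3 : ∀ i j (α β : ℕ), 0 < α → 0 < β → e₁ i ≠ 0 → e₂ j ≠ 0 → n ∣ m i * α + m' j * β →
      (1 : ℚ) ≤ α / e₁ i + β / e₂ j) :
    Orb (fun i => 1 - 1 / (e₁ i : ℚ)) (fun j => 1 - 1 / (e₂ j : ℚ)) a b S t x := by
  intro P hP
  have hN := dvd_con (a := a) (b := b) h1 h2 hz e P
  rcases con_cases ha P t with h3 | ⟨i, hi, h3⟩ <;> rcases con_cases hb P x with h4 | ⟨j, hj, h4⟩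
  · left; omega
  · right
    rw [sum_zer_zero m h3, sum_zer_eq hb m' hj, zero_add] at hN
    have h5 : e₂ j ≠ 0 := fun h => absurd (hS₂ P hP j h) (by omega)
    obtain ⟨β, hβ⟩ : ∃ β : ℕ, con b P x = β := Int.eq_ofNat_of_zero_le (con_nonneg _ _ _)
    rw [hβ] at hN
    have h6 := C2 j β (by omega) (by exact_mod_cast hN)
    rw [conW_eq hb _ (Finset.mem_univ j) hj,
      conW_zero _ (zer_of_conG (by rw [conG_univ]; exact h3)), h3, hβ]
    have h7 : (0 : ℚ) < e₂ j := by exact_mod_cast Nat.pos_of_ne_zero h5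
    have h8 : (1 : ℚ) ≤ 1 / e₂ j * β := by
      rw [one_div, inv_mul_eq_div, le_div_iff₀ h7, one_mul]
      exact_mod_cast h6
    push_cast
    linarith
  · right
    rw [sum_zer_zero m' h4, sum_zer_eq ha m hi, add_zero] at hN
    have h5 : e₁ i ≠ 0 := fun h => absurd (hS₁ P hP i h) (by omega)
    obtain ⟨α, hα⟩ : ∃ α : ℕ, con a P t = α := Int.eq_ofNat_of_zero_le (con_nonneg _ _ _)
    rw [hα] at hN
    have h6 := C1 i α (by omega) (by exact_mod_cast hN)
    rw [conW_eq ha _ (Finset.mem_univ i) hi,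
      conW_zero _ (zer_of_conG (by rw [conG_univ]; exact h4)), h4, hα]
    have h7 : (0 : ℚ) < e₁ i := by exact_mod_cast Nat.pos_of_ne_zero h5
    have h8 : (1 : ℚ) ≤ 1 / e₁ i * α := by
      rw [one_div, inv_mul_eq_div, le_div_iff₀ h7, one_mul]
      exact_mod_cast h6
    push_cast
    linarith
  · right
    rw [sum_zer_eq ha m hi, sum_zer_eq hb m' hj] at hN
    have h5 : e₁ i ≠ 0 := fun h => absurd (hS₁ P hP i h) (by omega)
    have h5' : e₂ j ≠ 0 := fun h => absurd (hS₂ P hP j h) (by omega)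
    obtain ⟨α, hα⟩ : ∃ α : ℕ, con a P t = α := Int.eq_ofNat_of_zero_le (con_nonneg _ _ _)
    obtain ⟨β, hβ⟩ : ∃ β : ℕ, con b P x = β := Int.eq_ofNat_of_zero_le (con_nonneg _ _ _)
    rw [hα, hβ] at hN
    have h6 := C3 i j α β (by omega) (by omega) h5 h5' (by exact_mod_cast hN)
    rw [conW_eq ha _ (Finset.mem_univ i) hi, conW_eq hb _ (Finset.mem_univ j) hj, hα, hβ]
    push_cast
    rw [div_eq_inv_mul, div_eq_inv_mul] at h6
    rw [one_div, one_div]
    linarith

end

end Pool.Agent.TH875.PQ
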