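import Pool.Agent.TH875.PQ.C

/-! The trichotomy: either the curve moves with one of the very general points, or it is
ramified over all of them. -/

set_option autoImplicit false

open FF
open Pool.Agent.W603.LV Pool.Agent.W603.PV
open Pool.Agent.TH875.Vg

namespace Pool.Agent.TH875.PQ

section

variable {k : Type} [Field k] [CharZero k] [IsAlgClosed k] {L : Type} [Field L] [Algebra k L]
  [IsFF k L] {q₁ q₂ : ℕ} {a : Fin q₁ → k} {b : Fin q₂ → k} {t x : L}
  {w : Fin q₁ → ℚ} {w' : Fin q₂ → ℚ}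

/-- Riemann-Hurwitz for `t`, with the points `a i`, `i ∈ G`, over which the curve does not meet the
fibres `x = b j`, and the points `b j`, `j ∈ H`, over which `t` is ramified. -/
theorem ineq_fixT (ha : Function.Injective a) (hb : Function.Injective b) (hw1 : ∀ i, w i ≤ 1)
    (hw1' : ∀ j, w' j ≤ 1)
    (S : Finset (Place k L)) (horb : Orb w w' a b S t x)
    (ht : Transcendental k t) (G : Finset (Fin q₁)) (H : Finset (Fin q₂))
    (hfix : ∀ P : Place k L, 0 < conG a G P t → con b P x = 0)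
    (hfix2 : ∀ P : Place k L, 0 < conG b H P x → con a P t = 0 ∧
      Ge P (-2 * pol P t + (con b P x - 1) + vo P (der k L)) (der k L t)) :
    ((∑ i ∈ G, w i) - 2) * hgt k t + (∑ j ∈ H, w' j) * hgt k x ≤ canDeg k L + S.card := by
  classical
  have hδ : der k L t ≠ 0 := der_ne_zero der_ne ht
  obtain ⟨T1, hT1⟩ := exists_supp (k := k) (Finset.univ : Finset (Fin q₁))
    fun i => t - algebraMap k L (a i)
  obtain ⟨T2, hT2⟩ := exists_supp (k := k) (Finset.univ : Finset (Fin q₂))
    fun j => x - algebraMap k L (b j)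
  obtain ⟨T3, hT3⟩ := exists_supp (k := k) (Finset.univ : Finset (Fin 2)) ![t, der k L t]
  have hvf := vo_finite (k := k) (K := L) der_ne
  obtain ⟨T, hTd⟩ : ∃ T, T = T1 ∪ T2 ∪ T3 ∪ hvf.toFinset ∪ S := ⟨_, rfl⟩
  have hTa : ∀ i, ∀ P : Place k L, P.ord (t - algebraMap k L (a i)) ≠ 0 → P ∈ T := fun i P hP => by
    rw [hTd]; simp [hT1 i (Finset.mem_univ _) P hP]
  have hTb : ∀ j, ∀ P : Place k L, P.ord (x - algebraMap k L (b j)) ≠ 0 → P ∈ T := fun j P hP => by
    rw [hTd]; simp [hT2 j (Finset.mem_univ _) P hP]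
  have hTt : ∀ P : Place k L, P.ord t ≠ 0 → P ∈ T := fun P hP => by
    rw [hTd]; simp [hT3 0 (Finset.mem_univ _) P hP]
  have hTW : ∀ P : Place k L, P.ord (der k L t) ≠ 0 → P ∈ T := fun P hP => by
    rw [hTd]; simp [hT3 1 (Finset.mem_univ _) P hP]
  have hTv : ∀ P : Place k L, vo P (der k L) ≠ 0 → P ∈ T := fun P hP => by
    rw [hTd]; simp [hP]
  have hTS : S ⊆ T := by rw [hTd]; exact Finset.subset_union_right
  have s1 := sum_pol t T hTt
  have c3 := sum_conW w a G t T hTa
  have c4 := sum_conW w' b H x T hTb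
  have s6 := sum_ord_finset (der k L t) T hTW
  have s7 := canDeg_finset (k := k) (K := L) der_ne T hTv
  have key : ∀ P ∈ T, -2 * (pol P t : ℚ) + (conW w a G P t + conW w' b H P x) +
      vo P (der k L) ≤ P.ord (der k L t) + (if P ∈ S then 1 else 0) := by
    intro P _
    rcases conG_cases hb H P x with g0 | ⟨j, hj, hj', g0, -⟩
    · have h3 := (ge_der_con ha P t).resolve_left hδ
      have h4 : ((-2 * pol P t + max (con a P t - 1) 0 + vo P (der k L) : ℤ) : ℚ) ≤
        P.ord (der k L t) := by exact_mod_cast h3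
      have h7 : conW w a G P t ≤ (max (con a P t - 1) 0 : ℤ) + (if P ∈ S then 1 else 0) := by
        have h9 : (con a P t : ℚ) - 1 ≤ (max (con a P t - 1) 0 : ℤ) := by
          exact_mod_cast le_max_left _ _
        have h11 : (0 : ℚ) ≤ (max (con a P t - 1) 0 : ℤ) := by
          exact_mod_cast le_max_right _ _
        have h12 : (0 : ℚ) ≤ (if P ∈ S then 1 else 0) := by split_ifs <;> norm_num
        rcases conG_cases ha G P t with h0 | ⟨i, hi, hi', h0, -⟩
        · rw [conW_zero w (zer_of_conG h0)]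
          linarith
        · have h8 : 0 < con a P t := by
            have := con_eq ha hi'
            omega
          have h1 := hfix P (by omega)
          have h5 := conW_eq ha w hi hi'
          have h6 := conW_eq ha w (Finset.mem_univ i) hi'
          have h10 : conW w' b Finset.univ P x = 0 :=
            conW_zero w' (zer_of_conG (by rw [conG_univ]; exact h1))
          rw [h5, ← h6]
          by_cases hS : P ∈ S
          · rw [if_pos hS]
            have wa1 := conW_le hw1 a P t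
            linarith
          · rw [if_neg hS, add_zero]
            rcases horb P hS with h13 | h13
            · omega
            · rw [h10, h1] at h13
              push_cast at h13
              linarith
      rw [conW_zero w' (zer_of_conG g0), add_zero]
      push_cast at h4 h7 ⊢
      linarith
    · have h8 : 0 < con b P x := by
        have := con_eq hb hj'
        omega
      obtain ⟨h1, h2⟩ := hfix2 P (by omega)
      have h3 := h2.resolve_left hδ
      have h4 : ((-2 * pol P t + (con b P x - 1) + vo P (der k L) : ℤ) : ℚ) ≤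
        P.ord (der k L t) := by exact_mod_cast h3
      have h5 := conW_eq hb w' hj hj'
      have h6 := conW_eq hb w' (Finset.mem_univ j) hj'
      have h10 : conW w a Finset.univ P t = 0 :=
        conW_zero w (zer_of_conG (by rw [conG_univ]; exact h1))
      have h10' : conW w a G P t = 0 :=
        conW_zero w fun i _ => zer_of_conG (G := Finset.univ) (by rw [conG_univ]; exact h1) i
          (Finset.mem_univ i)
      have h7 : conW w' b Finset.univ P x ≤ con b P x - 1 + (if P ∈ S then 1 else 0) := by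
        by_cases hS : P ∈ S
        · rw [if_pos hS]
          have wb1 := conW_le hw1' b P x
          linarith
        · rw [if_neg hS, add_zero]
          rcases horb P hS with h11 | h11
          · omega
          · rw [h10, h1] at h11
            push_cast at h11
            linarith
      rw [h10', h5, ← h6]
      push_cast at h4 h7 ⊢
      linarith
  have hsum := Finset.sum_le_sum key
  simp only [Finset.sum_add_distrib, ← Finset.mul_sum] at hsum
  have c1 : ∑ P ∈ T, (pol P t : ℚ) = hgt k t := by exact_mod_cast s1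
  have c6 : ∑ P ∈ T, (P.ord (der k L t) : ℚ) = 0 := by exact_mod_cast s6
  have c7 : ∑ P ∈ T, (vo P (der k L) : ℚ) = - canDeg k L := by exact_mod_cast s7
  have c8 : ∑ P ∈ T, (if P ∈ S then (1 : ℚ) else 0) = S.card := by
    rw [← Finset.sum_filter, Finset.filter_mem_eq_inter, Finset.inter_eq_right.2 hTS]
    simp
  rw [c1, c3, c4, c6, c7, c8] at hsum
  linarith

/-- The classical inequality (no very general points). -/
theorem ineq_zero (ha : Function.Injective a) (hb : Function.Injective b)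
    (hw1 : ∀ i, w i ≤ 1) (hw' : ∀ j, 1 / 2 ≤ w' j) (hw1' : ∀ j, w' j ≤ 1)
    (ht : Transcendental k t)
    (S : Finset (Place k L)) (horb : Orb w w' a b S t x) :
    ((∑ i, w i) - 2) * hgt k t - (∑ j, w' j) * hgt k x ≤ canDeg k L + S.card := by
  have h1 := ineq_fixL ha hb hw1 hw' hw1' S horb ht ∅ (fun P hP => by
    simp [conG] at hP)
  simp only [Finset.sum_empty, mul_zero, zero_sub] at h1
  linarith

/-- The trichotomy: the curve moves with one of the points `a i`, or with one of the points `b j`,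
or with none of them. -/
theorem main_tri (k₀ : Subfield k) (ha : Function.Injective a) (hb : Function.Injective b)
    (hw : ∀ i, 1 / 2 ≤ w i) (hw1 : ∀ i, w i ≤ 1) (hw' : ∀ j, 1 / 2 ≤ w' j) (hw1' : ∀ j, w' j ≤ 1)
    (G₁ : Finset (Fin q₁)) (G₂ : Finset (Fin q₂))
    (ha0 : ∀ i, i ∉ G₁ → a i ∈ k₀) (hb0 : ∀ j, j ∉ G₂ → b j ∈ k₀)
    (hab : AlgebraicIndependent k₀ (Sum.elim (fun i : G₁ => a i) (fun j : G₂ => b j)))
    (htx : Transcendental k t ∨ Transcendental k x)
    (S : Finset (Place k L)) (horb : Orb w w' a b S t x) {μ₁ μ₂ : ℚ} (hμ₁0 : 0 ≤ μ₁)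
    (hμ₁ : ∀ i ∈ G₁, w i ≤ μ₁) (hμ₂ : ∀ j ∈ G₂, w' j ≤ μ₂) :
    ((∑ i, w i) - 2 - 2 * μ₁) * hgt k t + ((∑ j, w' j) - 2) * hgt k x ≤ canDeg k L + S.card ∨
    ((∑ i, w i) - 2) * hgt k t + ((∑ j, w' j) - 2 - 2 * μ₂) * hgt k x ≤ canDeg k L + S.card ∨
    (((∑ i ∈ G₁, w i) - 2) * hgt k t + (∑ j ∈ G₂, w' j) * hgt k x ≤ canDeg k L + S.card ∧
    (∑ i ∈ G₁, w i) * hgt k t + ((∑ j ∈ G₂, w' j) - 2) * hgt k x ≤ canDeg k L + S.card ∧
    (2 * (∑ i ∈ G₁, w i) - ∑ i, w i) * hgt k t + ((∑ j, w' j) - 2) * hgt k x ≤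
      canDeg k L + S.card ∧
    ((∑ i, w i) - 2) * hgt k t + (2 * (∑ j ∈ G₂, w' j) - ∑ j, w' j) * hgt k x ≤
      canDeg k L + S.card) := by
  classical
  have ht0 : (0 : ℚ) ≤ hgt k t := by exact_mod_cast hgt_nonneg t
  have hx0 : (0 : ℚ) ≤ hgt k x := by exact_mod_cast hgt_nonneg x
  have hμt := mul_nonneg hμ₁0 ht0
  by_cases ht : Transcendental k t
  swap
  · -- `t` constant
    left
    have hx := htx.resolve_left ht
    obtain ⟨c, rfl⟩ := exists_const_of_alg ht
    have h1 := ineq_fixT (w := w') (w' := w) hb ha hw1' hw1 S horb.symm hx Finset.univ ∅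
      (fun P _ => con_const P) (fun P hP => by simp [conG] at hP)
    rw [hgt_const] at h1 ⊢
    push_cast at h1 ⊢
    linarith
  by_cases hx : Transcendental k x
  swap
  · left
    obtain ⟨c, rfl⟩ := exists_const_of_alg hx
    have h1 := ineq_fixT (w := w) (w' := w') ha hb hw1 hw1' S horb ht Finset.univ ∅
      (fun P _ => con_const P) (fun P hP => by simp [conG] at hP)
    rw [hgt_const] at h1 ⊢
    push_cast at h1 ⊢
    linarith
  have hda : ∀ i ∈ G₁, ∃ (d : Derivation ℤ k k) (D : Derivation ℤ L L), IsLift d D ∧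
      d (a i) = 1 ∧ (∀ i', i' ≠ i → d (a i') = 0) ∧ (∀ j, d (b j) = 0) := by
    intro i hi
    obtain ⟨d, hd0, hd⟩ := exists_generic k₀ hab (Sum.inl ⟨i, hi⟩)
    obtain ⟨D, hD, -⟩ := exists_lift d ht
    refine ⟨d, D, hD, ?_, fun i' hi' => ?_, fun j => ?_⟩
    · have := hd (Sum.inl ⟨i, hi⟩); simpa using this
    · by_cases h : i' ∈ G₁
      · have := hd (Sum.inl ⟨i', h⟩); simpa [hi'] using this
      · exact hd0 _ (ha0 i' h)
    · by_cases h : j ∈ G₂
      · have := hd (Sum.inr ⟨j, h⟩); simpa using this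
      · exact hd0 _ (hb0 j h)
  have hdb : ∀ j ∈ G₂, ∃ (d : Derivation ℤ k k) (D : Derivation ℤ L L), IsLift d D ∧
      d (b j) = 1 ∧ (∀ j', j' ≠ j → d (b j') = 0) ∧ (∀ i, d (a i) = 0) := by
    intro j hj
    obtain ⟨d, hd0, hd⟩ := exists_generic k₀ hab (Sum.inr ⟨j, hj⟩)
    obtain ⟨D, hD, -⟩ := exists_lift d ht
    refine ⟨d, D, hD, ?_, fun j' hj' => ?_, fun i => ?_⟩
    · have := hd (Sum.inr ⟨j, hj⟩); simpa using this
    · by_cases h : j' ∈ G₂
      · have := hd (Sum.inr ⟨j', h⟩); simpa [hj'] using this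
      · exact hd0 _ (hb0 j' h)
    · by_cases h : i ∈ G₁
      · have := hd (Sum.inl ⟨i, h⟩); simpa using this
      · exact hd0 _ (ha0 i h)
  by_cases hA : ∃ i ∈ G₁, ∃ (d : Derivation ℤ k k) (D : Derivation ℤ L L), IsLift d D ∧
      d (a i) = 1 ∧ (∀ i', i' ≠ i → d (a i') = 0) ∧ (∀ j, d (b j) = 0) ∧ W k D t x ≠ 0
  · left
    obtain ⟨i, hi, d, D, hD, -, hda2, hda3, hW⟩ := hA
    have h2 := ineq_moveL ha hb hw hw1 hw' hw1' S horb hda2 hda3 hD hW
    have h4 := mul_le_mul_of_nonneg_right (hμ₁ i hi) ht0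
    linarith
  by_cases hB : ∃ j ∈ G₂, ∃ (d : Derivation ℤ k k) (D : Derivation ℤ L L), IsLift d D ∧
      d (b j) = 1 ∧ (∀ j', j' ≠ j → d (b j') = 0) ∧ (∀ i, d (a i) = 0) ∧ W k D t x ≠ 0
  · right; left
    obtain ⟨j, hj, d, D, hD, -, hdb2, hdb3, hW⟩ := hB
    have h2 := ineq_moveL hb ha hw' hw1' hw hw1 S horb.symm hdb2 hdb3 hD
      (by rw [W_swap]; exact neg_ne_zero.2 hW)
    have h4 := mul_le_mul_of_nonneg_right (hμ₂ j hj) hx0
    linarith
  right; right
  push Not at hA hB
  have hfix1 := fun P : Place k L => fix_of_W (P := P) (a := b) (b := a) (t := x) (x := t) hb ha G₁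
    (fun i hi => by
      obtain ⟨d, D, hD, h3, h4, h5⟩ := hda i hi
      refine ⟨d, D, hD, h3, h5, ?_⟩
      rw [W_swap, hA i hi d D hD h3 h4 h5, neg_zero]) hx
  have hfix2 := fun P : Place k L => fix_of_W (P := P) ha hb G₂
    (fun j hj => by
      obtain ⟨d, D, hD, h3, h4, h5⟩ := hdb j hj
      exact ⟨d, D, hD, h3, h5, hB j hj d D hD h3 h4 h5⟩) ht
  refine ⟨ineq_fixT ha hb hw1 hw1' S horb ht G₁ G₂ (fun P hP => (hfix1 P hP).1)
    (fun P hP => hfix2 P hP), ?_, ?_, ineq_fixL ha hb hw1 hw' hw1' S horb ht G₂ 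
    (fun P hP => hfix2 P hP)⟩
  · have h1 := ineq_fixT hb ha hw1' hw1 S horb.symm hx G₂ G₁ (fun P hP => (hfix2 P hP).1)
      (fun P hP => hfix1 P hP)
    linarith
  · have h1 := ineq_fixL hb ha hw1' hw hw1 S horb.symm hx G₁ (fun P hP => hfix1 P hP)
    linarith

end

end Pool.Agent.TH875.PQ
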