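import Pool.Agent.TH875.PQ.D
import Pool.Agent.TH875.Vg.Form

/-! Curves on the surfaces `z ^ 2 = ∏ (t - a i) * g (t, x)`, with very general `a i`. -/

set_option autoImplicit false

open FF MvPolynomial
open Pool.Agent.W603.LV Pool.Agent.W603.PV
open Pool.Agent.TH875.Vg

namespace Pool.Agent.TH875.PQ

section

variable {k : Type} [Field k] [CharZero k] [IsAlgClosed k] {L : Type} [Field L] [Algebra k L]
  [IsFF k L] {q : ℕ} {a : Fin q → k} {t x : L}

omit [CharZero k] [IsAlgClosed k] [IsFF k L] in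
theorem chain2 {d : Derivation ℤ k k} {D : Derivation ℤ L L} (h : IsLift d D)
    {g : MvPolynomial (Fin 2) k} (hg : ∀ m, d (g.coeff m) = 0) (t x : L) :
    D (aeval ![t, x] g) =
      aeval ![t, x] (pderiv 0 g) * D t + aeval ![t, x] (pderiv 1 g) * D x := by
  rw [der_aeval D ![t, x] g, Fin.sum_univ_two]
  have h1 : cpart (fun a => D (algebraMap k L a)) ![t, x] g = 0 := by
    unfold cpart
    refine Finset.sum_eq_zero fun m _ => ?_
    beta_reduce
    rw [h, hg m, map_zero, zero_mul]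
  rw [h1, zero_add]
  simp

omit [CharZero k] [IsAlgClosed k] [IsFF k L] in
theorem isLift_zero : IsLift (0 : Derivation ℤ k k) (toZ (0 : Derivation k L L)) := by
  intro c
  simp [toZ_apply]

theorem gxW {d : Derivation ℤ k k} {D : Derivation ℤ L L} (h : IsLift d D)
    {g : MvPolynomial (Fin 2) k} (hg : ∀ m, d (g.coeff m) = 0) (t x : L) :
    aeval ![t, x] (pderiv 1 g) * W k D t x =
      D t * der k L (aeval ![t, x] g) - D (aeval ![t, x] g) * der k L t := by
  have h1 := chain2 h hg t x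
  have h2 : IsLift (0 : Derivation ℤ k k) (toZ (der k L)) := by
    intro c
    simp [toZ_apply]
  have h3 := chain2 h2 (g := g) (fun m => by simp) t x
  simp only [toZ_apply] at h3
  rw [h1, h3]
  unfold W
  ring

/-- the estimate of the Jacobian at a zero of `g` -/
theorem ge_gxW (ha : Function.Injective a) (P : Place k L) {d : Derivation ℤ k k}
    {D : Derivation ℤ L L} (h : IsLift d D)
    {g : MvPolynomial (Fin 2) k} (hg : ∀ m, d (g.coeff m) = 0)
    (hG : 0 < P.ord (aeval ![t, x] g)) :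
    Ge P (-2 * pol P t + P.ord (aeval ![t, x] g) - 1 + vo P (der k L) -
        2 * pol P t) (aeval ![t, x] (pderiv 1 g) * W k D t x) ∧
    ((∀ i, 0 < P.ord (t - algebraMap k L (a i)) → d (a i) = 0) →
      Ge P (-2 * pol P t + con a P t + P.ord (aeval ![t, x] g) - 1 + vo P (der k L) -
        2 * pol P t) (aeval ![t, x] (pderiv 1 g) * W k D t x)) := by
  have htr : Transcendental k (unif P) := P.transcendental_of_ord_ne (by rw [ord_unif]; omega)
  obtain ⟨D₀, hD₀, hD₀u⟩ := exists_lift d htr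
  rw [W_indep h hD₀, gxW hD₀ hg]
  have h1 : Ge P (P.ord (aeval ![t, x] g)) (D₀ (aeval ![t, x] g)) :=
    hD₀.ge P (ord_unif P) hD₀u (Or.inr le_rfl)
  have h2 : Ge P (P.ord (aeval ![t, x] g) - 1 + vo P (der k L)) (der k L (aeval ![t, x] g)) :=
    Or.inr (ord_der P (der_ne (k := k) (K := L)) hG.ne').2.ge
  have h3 := (ge_basic P hD₀ hD₀u t).1
  have h4 := ge_der_con ha P t
  have hp := pol_nonneg P t
  have hc := con_nonneg a P t
  have hm : con a P t - 1 ≤ max (con a P t - 1) 0 := le_max_left _ _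
  have hm0 : 0 ≤ max (con a P t - 1) 0 := le_max_right _ _
  constructor
  · refine Ge.sub ((h3.mul h2).mono (by linarith)) ((h1.mul h4).mono (by linarith))
  · intro hd
    have h5 := ge_con ha P hD₀ hD₀u t hd
    refine Ge.sub ((h5.mul h2).mono (by linarith)) ((h1.mul h4).mono (by linarith))

/-- at a zero of `g` and of `g'` the discriminant vanishes -/
theorem bez (P : Place k L) {A B g : MvPolynomial (Fin 2) k} {Δ : MvPolynomial (Fin 1) k}
    (hAB : A * g + B * pderiv 1 g = rename (fun _ => 0) Δ)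
    (hΔ : aeval (fun _ : Fin 1 => t) Δ ≠ 0) {N : ℕ} (hA : A.totalDegree ≤ N)
    (hB : B.totalDegree ≤ N) :
    P.ord (aeval ![t, x] g) ≤ N * (pol P t + pol P x) + zer P (aeval (fun _ : Fin 1 => t) Δ) ∨
    aeval ![t, x] (pderiv 1 g) ≠ 0 ∧ P.ord (aeval ![t, x] (pderiv 1 g)) ≤
      N * (pol P t + pol P x) + zer P (aeval (fun _ : Fin 1 => t) Δ) := by
  obtain ⟨K, hK⟩ : ∃ K, K = N * (pol P t + pol P x) + zer P (aeval (fun _ : Fin 1 => t) Δ) :=
    ⟨_, rfl⟩
  rw [← hK]
  have hp := pol_nonneg P t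
  have hx := pol_nonneg P x
  have hb : ∀ C : MvPolynomial (Fin 2) k, C.totalDegree ≤ N →
      Ge P (-(N * (pol P t + pol P x))) (aeval ![t, x] C) := by
    intro C hC
    have h1 := ge_mvpoly P ![t, x] ![(pol P t).toNat, (pol P x).toNat] (by
      intro i
      fin_cases i
      · have h2 := ge_pol P t
        simpa [Int.toNat_of_nonneg hp] using h2
      · have h2 := ge_pol P x
        simpa [Int.toNat_of_nonneg hx] using h2) C
    refine h1.mono ?_
    rw [Fin.sum_univ_two]
    push_cast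
    simp only [Matrix.cons_val_zero, Matrix.cons_val_one, Int.toNat_of_nonneg hp,
      Int.toNat_of_nonneg hx]
    have h3 : (C.totalDegree : ℤ) * (pol P t + pol P x) ≤ N * (pol P t + pol P x) :=
      mul_le_mul_of_nonneg_right (by exact_mod_cast hC) (by linarith)
    linarith
  by_contra hcon
  push Not at hcon
  obtain ⟨h1, h2⟩ := hcon
  have h3 : Ge P (K + 1) (aeval ![t, x] g) := Or.inr (by omega)
  have h4 : Ge P (K + 1) (aeval ![t, x] (pderiv 1 g)) := by
    by_cases h5 : aeval ![t, x] (pderiv 1 g) = 0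
    · left; exact h5
    · right; have := h2 h5; omega
  have h5 := ((hb A hA).mul h3).add ((hb B hB).mul h4)
  rw [← map_mul, ← map_mul, ← map_add, hAB, aeval_rename] at h5
  have h6 : (![t, x] ∘ fun _ : Fin 1 => (0 : Fin 2)) = fun _ => t := by
    funext i; simp
  rw [h6] at h5
  have h7 := h5.resolve_left hΔ
  have h8 : P.ord (aeval (fun _ : Fin 1 => t) Δ) ≤ zer P (aeval (fun _ : Fin 1 => t) Δ) :=
    le_max_left _ _
  rw [hK] at h7
  linarith

/-- at a pole of `x` of large order the leading term dominates -/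
theorem monic_ord (P : Place k L) {g₁ : MvPolynomial (Fin 2) k} {l δ : ℕ}
    (h1 : ∀ m ∈ g₁.support, m 1 < 2 * l ∧ m 0 ≤ δ) (hπ : δ * pol P t < pol P x)
    (h0 : aeval ![t, x] (X 1 ^ (2 * l) + g₁) ≠ 0) :
    P.ord (aeval ![t, x] (X 1 ^ (2 * l) + g₁)) = -(2 * l * pol P x) := by
  have hp := pol_nonneg P t
  have hx := pol_nonneg P x
  have hδp : 0 ≤ (δ : ℤ) * pol P t := by positivity
  have hx0 : P.ord x = -pol P x := by
    unfold pol at hπ ⊢
    rcases le_total (-P.ord x) 0 with h | h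
    · rw [max_eq_right h] at hπ; unfold pol at hδp; omega
    · rw [max_eq_left h]; ring
  have hxne : x ≠ 0 := by
    rintro rfl
    rw [P.ord_zero] at hx0
    omega
  have h2 : Ge P (-(2 * l * pol P x) + 1) (aeval ![t, x] g₁) := by
    rw [aeval_def, eval₂_eq']
    refine Ge.sum _ _ fun m hm => ?_
    obtain ⟨h3, h4⟩ := h1 m hm
    rw [Fin.prod_univ_two]
    have h5 := (Ge.const (P := P) (g₁.coeff m)).mul
      (((ge_pol P t).pow (m 0)).mul ((ge_pol P x).pow (m 1)))
    refine h5.mono ?_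
    have h6 : (m 0 : ℤ) * pol P t ≤ δ * pol P t :=
      mul_le_mul_of_nonneg_right (by exact_mod_cast h4) hp
    have h7 : (m 1 : ℤ) * pol P x ≤ (2 * l - 1) * pol P x :=
      mul_le_mul_of_nonneg_right (by omega) hx
    linarith
  have h3 : P.ord (x ^ (2 * l)) = -(2 * l * pol P x) := by
    rw [P.ord_pow, hx0]; push_cast; ring
  have hx1 : (![t, x] : Fin 2 → L) 1 = x := rfl
  rw [map_add, map_pow, aeval_X, hx1] at h0 ⊢
  by_cases h4 : aeval ![t, x] g₁ = 0
  · rw [h4, add_zero, h3]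
  · have h5 := h2.resolve_left h4
    rw [(P.ord_add_eq (pow_ne_zero _ hxne) h4 (by omega)).2, h3]

/-- The local estimate: `f = ∏ (t - a i)`, `2 ord z = ord f + ord g`. -/
theorem loc_move (ha : Function.Injective a) (P : Place k L) {d : Derivation ℤ k k}
    {D : Derivation ℤ L L} (h : IsLift d D)
    {A B g₁ : MvPolynomial (Fin 2) k} {Δ : MvPolynomial (Fin 1) k} {l δ N : ℕ}
    (hg : ∀ m, d ((X 1 ^ (2 * l) + g₁).coeff m) = 0)
    (h1 : ∀ m ∈ g₁.support, m 1 < 2 * l ∧ m 0 ≤ δ)
    (hAB : A * (X 1 ^ (2 * l) + g₁) + B * pderiv 1 (X 1 ^ (2 * l) + g₁) = rename (fun _ => 0) Δ)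
    (hΔ : aeval (fun _ : Fin 1 => t) Δ ≠ 0) (hA : A.totalDegree ≤ N) (hB : B.totalDegree ≤ N)
    (hG : aeval ![t, x] (X 1 ^ (2 * l) + g₁) ≠ 0) (hW : W k D t x ≠ 0) {i₀ : Fin q}
    (hda : ∀ i, i ≠ i₀ → d (a i) = 0) (y : ℤ)
    (hy : 2 * y = con a P t - q * pol P t + P.ord (aeval ![t, x] (X 1 ^ (2 * l) + g₁)))
    {C : ℤ} (hC : 5 + 2 * δ + N * (1 + δ) + l * δ ≤ C) :
    2 * vo P (der k L) + P.ord (aeval ![t, x] (X 1 ^ (2 * l) + g₁)) + 2 * (l - 2) * pol P x +
      con a P t - 2 * C * (pol P t + zer P (aeval (fun _ : Fin 1 => t) Δ)) -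
      2 * zer P (t - algebraMap k L (a i₀)) ≤ 2 * P.ord (W k D t x) := by
  have hp := pol_nonneg P t
  have hx := pol_nonneg P x
  have hρ := zer_nonneg P (aeval (fun _ : Fin 1 => t) Δ)
  have hα := con_nonneg a P t
  have hz0 := zer_nonneg P (t - algebraMap k L (a i₀))
  have hb : Function.Injective (Fin.elim0 : Fin 0 → k) := fun i => i.elim0
  have hcb : con (Fin.elim0 : Fin 0 → k) P x = 0 := by unfold con; simp
  obtain ⟨w1, w2⟩ := ge_W ha hb P h t x (fun j _ => j.elim0)
  rw [hcb] at w1 w2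
  have bz := bez (x := x) P hAB hΔ hA hB
  obtain ⟨p, hpd⟩ : ∃ p, p = pol P t := ⟨_, rfl⟩
  obtain ⟨π, hπd⟩ : ∃ π, π = pol P x := ⟨_, rfl⟩
  obtain ⟨ρ, hρd⟩ : ∃ ρ, ρ = zer P (aeval (fun _ : Fin 1 => t) Δ) := ⟨_, rfl⟩
  have hδ0 : (0 : ℤ) ≤ δ := Int.natCast_nonneg _
  have hN0 : (0 : ℤ) ≤ N := Int.natCast_nonneg _
  have hl0 : (0 : ℤ) ≤ l := Int.natCast_nonneg _
  have hδN : (0 : ℤ) ≤ N * (1 + δ) := by positivity
  have hlδ : (0 : ℤ) ≤ l * δ := by positivity
  have hC3 : 3 ≤ C := by linarith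
  -- products
  have q1 : (5 + 2 * δ + N * (1 + δ) + l * δ) * p ≤ C * p :=
    mul_le_mul_of_nonneg_right hC (by rw [hpd]; exact hp)
  have q2 : 3 * ρ ≤ C * ρ := mul_le_mul_of_nonneg_right hC3 (by rw [hρd]; exact hρ)
  have hp' : 0 ≤ p := by rw [hpd]; exact hp
  have q3 : 0 ≤ δ * p := mul_nonneg hδ0 hp'
  have q4 : 0 ≤ N * (1 + δ) * p := mul_nonneg hδN hp'
  have q5 : 0 ≤ l * δ * p := mul_nonneg hlδ hp'
  -- contact with a point
  have hαp : 0 < con a P t → pol P t = 0 := by
    intro hα'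
    rcases con_cases ha P t with h2 | ⟨i, hi, -⟩
    · omega
    · exact pol_zero_of_zer hi
  have hz0α : 0 < zer P (t - algebraMap k L (a i₀)) →
      zer P (t - algebraMap k L (a i₀)) = con a P t := by
    intro h2
    have h3 : 0 < P.ord (t - algebraMap k L (a i₀)) := by
      by_contra h4
      have : zer P (t - algebraMap k L (a i₀)) = 0 := max_eq_right (by omega)
      omega
    rw [con_eq ha h3]
    exact max_eq_left h3.le
  have hd' : zer P (t - algebraMap k L (a i₀)) = 0 →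
      ∀ i, 0 < P.ord (t - algebraMap k L (a i)) → d (a i) = 0 := by
    intro h2 i hi
    refine hda i ?_
    rintro rfl
    have : P.ord (t - algebraMap k L (a i)) ≤ zer P (t - algebraMap k L (a i)) := le_max_left _ _
    omega
  -- division by `g'`
  have dv : ∀ {M : ℤ}, aeval ![t, x] (pderiv 1 (X 1 ^ (2 * l) + g₁)) ≠ 0 →
      P.ord (aeval ![t, x] (pderiv 1 (X 1 ^ (2 * l) + g₁))) ≤ N * (pol P t + pol P x) + ρ →
      Ge P M (aeval ![t, x] (pderiv 1 (X 1 ^ (2 * l) + g₁)) * W k D t x) →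
      M - (N * (p + π) + ρ) ≤ P.ord (W k D t x) := by
    intro M h2 h3 h4
    have h5 := (Ge.of_mul h2 h4).resolve_left hW
    rw [hpd, hπd]
    linarith
  obtain ⟨γ, hγ⟩ : ∃ γ, γ = P.ord (aeval ![t, x] (X 1 ^ (2 * l) + g₁)) := ⟨_, rfl⟩
  obtain ⟨α, hαd⟩ : ∃ α, α = con a P t := ⟨_, rfl⟩
  obtain ⟨z₀, hz₀⟩ : ∃ z₀, z₀ = zer P (t - algebraMap k L (a i₀)) := ⟨_, rfl⟩
  have v1 := w1.resolve_left hW
  have v2 : z₀ = 0 → -2 * p - 2 * π + max (α - 1) 0 + vo P (der k L) ≤ P.ord (W k D t x) := by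
    intro h2
    have h3 := (w2 (hd' (by rw [← hz₀]; exact h2))).resolve_left hW
    rw [hpd, hπd, hαd]
    simpa using h3
  have g1 : 0 < γ → aeval ![t, x] (pderiv 1 (X 1 ^ (2 * l) + g₁)) ≠ 0 →
      P.ord (aeval ![t, x] (pderiv 1 (X 1 ^ (2 * l) + g₁))) ≤ N * (pol P t + pol P x) + ρ →
      -4 * p + γ - 1 + vo P (der k L) - (N * (p + π) + ρ) ≤ P.ord (W k D t x) := by
    intro h2 h3 h4
    have h5 := (ge_gxW ha P h (x := x) hg (by rw [← hγ]; exact h2)).1
    have h6 := dv h3 h4 h5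
    rw [← hγ, ← hpd] at h6
    linarith
  have g2 : 0 < γ → aeval ![t, x] (pderiv 1 (X 1 ^ (2 * l) + g₁)) ≠ 0 →
      P.ord (aeval ![t, x] (pderiv 1 (X 1 ^ (2 * l) + g₁))) ≤ N * (pol P t + pol P x) + ρ →
      z₀ = 0 →
      -4 * p + α + γ - 1 + vo P (der k L) - (N * (p + π) + ρ) ≤ P.ord (W k D t x) := by
    intro h2 h3 h4 h7
    have h5 := (ge_gxW ha P h (x := x) hg (by rw [← hγ]; exact h2)).2
      (hd' (by rw [← hz₀]; exact h7))
    have h6 := dv h3 h4 h5
    rw [← hγ, ← hpd, ← hαd] at h6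
    linarith
  simp only [max_eq_right (by norm_num : (0 : ℤ) - 1 ≤ 0), add_zero] at v1
  rw [← hpd] at hp hαp v1 hy bz
  rw [← hπd] at hx v1 bz
  rw [← hρd] at hρ bz
  rw [← hαd] at hα hαp hz0α hy
  rw [← hz₀] at hz0 hz0α
  rw [← hγ] at hy bz
  rw [← hpd, ← hπd, ← hρd, ← hαd, ← hz₀, ← hγ]
  have mx1 : α - 1 ≤ max (α - 1) 0 := le_max_left _ _
  have mx0 : 0 ≤ max (α - 1) 0 := le_max_right _ _
  by_cases hdom : δ * p < π
  · -- the leading term dominates
    have h2 := monic_ord P h1 (by rw [← hpd, ← hπd]; exact hdom) hG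
    rw [← hγ, ← hπd] at h2
    rcases hz0.eq_or_lt with h3 | h3
    · have h4 := v2 h3.symm
      rcases hα.eq_or_lt with h5 | h5
      · linarith
      · have h6 := hαp h5
        rw [h6] at h4 q1 hy ⊢
        have h7 : 2 ≤ α := by
          rw [h2] at hy
          have : 2 * (y + l * π) = α := by linarith
          omega
        linarith
    · have h4 := hz0α h3
      have h6 := hαp (by omega)
      rw [h6] at v1 q1 hy ⊢
      linarith
  · push Not at hdom
    have e1 : N * (p + π) ≤ N * (1 + δ) * p := by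
      have := mul_le_mul_of_nonneg_left hdom hN0
      linarith
    have e2 : (l : ℤ) * π ≤ l * δ * p := by
      have := mul_le_mul_of_nonneg_left hdom hl0
      linarith
    rcases hp.eq_or_lt with hp0 | hp0
    · -- `t` and `x` are regular
      have hπ0 : π = 0 := by rw [← hp0] at hdom; linarith
      rw [hπ0, ← hp0] at v1 v2 g1 g2 bz ⊢
      rw [← hp0] at hy
      simp only [mul_zero, add_zero, zero_add, neg_zero, sub_zero, zero_sub] at v1 v2 g1 g2 bz hy ⊢
      by_cases hγρ : γ ≤ ρ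
      · rcases hz0.eq_or_lt with h3 | h3
        · have h4 := v2 h3.symm
          rcases hα.eq_or_lt with h5 | h5
          · linarith
          · rcases hρ.eq_or_lt with h7 | h7
            · have h8 : 2 * y = α + γ := by linarith
              have h9 : γ + α ≤ 2 * (α - 1) := by omega
              linarith
            · linarith
        · have h4 := hz0α h3
          linarith
      · push Not at hγρ
        rcases bz with h5 | ⟨h5, h6⟩
        · omega
        · rcases hz0.eq_or_lt with h3 | h3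
          · have h4 := g2 (by omega) h5 (by rw [← hpd, ← hπd, hπ0, ← hp0]; simpa using h6) h3.symm
            have h7 : 2 ≤ α + γ := by
              have h8 : 2 * y = α + γ := by linarith
              omega
            linarith
          · have h4 := hz0α h3
            have h7 := g1 (by omega) h5 (by rw [← hpd, ← hπd, hπ0, ← hp0]; simpa using h6)
            linarith
    · -- `t` has a pole
      have h3 : α = 0 := by
        by_contra h4
        have := hαp (by omega)
        omega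
      have h4 : z₀ = 0 := by
        by_contra h5
        have := hz0α (by omega)
        omega
      rw [h3, h4]
      rcases bz with h5 | ⟨h5, h6⟩
      · linarith
      · by_cases h7 : γ ≤ 0
        · linarith
        · have h8 := g1 (by omega) h5 (by rw [← hpd, ← hπd]; exact h6)
          linarith

end

end Pool.Agent.TH875.PQ
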