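import Pool.Agent.TH875.PQ.E

/-! Curves on the surfaces `z ^ 2 = ∏ (t - a i) * g (t, x)`, with very general `a i`: sums. -/

set_option autoImplicit false

open FF MvPolynomial
open Pool.Agent.W603.LV Pool.Agent.W603.PV
open Pool.Agent.TH875.Vg

namespace Pool.Agent.TH875.PQ

section

variable {k : Type} [Field k] [CharZero k] [IsAlgClosed k] {L : Type} [Field L] [Algebra k L]
  [IsFF k L] {q : ℕ} {a : Fin q → k} {t x : L}

omit [CharZero k] [IsAlgClosed k] [IsFF k L] in
theorem ord_sq {G z : L} (hz : z ≠ 0) (e : z ^ 2 = (∏ i, (t - algebraMap k L (a i))) * G)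
    (P : Place k L) : 2 * P.ord z = con a P t - q * pol P t + P.ord G := by
  have hn0 : z ^ 2 ≠ 0 := pow_ne_zero _ hz
  have h3 : (∏ i, (t - algebraMap k L (a i))) ≠ 0 := by
    intro h; rw [h, zero_mul] at e; exact hn0 e
  have h4 : G ≠ 0 := by
    intro h; rw [h, mul_zero] at e; exact hn0 e
  have h5 : P.ord (z ^ 2) = 2 * P.ord z := by rw [P.ord_pow]; push_cast; ring
  rw [← h5, e, P.ord_mul h3 h4, ord_prodQ _ P _ (fun i hi => Finset.prod_ne_zero_iff.1 h3 i hi),
    Finset.sum_congr rfl (fun i _ => ord_sub_const a t P i), Finset.sum_sub_distrib,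
    Finset.sum_const, Finset.card_univ, Fintype.card_fin, nsmul_eq_mul]
  rfl

theorem hgt_one_var (t : L) (Δ : MvPolynomial (Fin 1) k) :
    hgt k (aeval (fun _ : Fin 1 => t) Δ) ≤ Δ.totalDegree * hgt k t := by
  have h1 := hgt_mvpoly (fun _ : Fin 1 => t) Δ
  simpa using h1

/-- The curve moves with `a i₀`. -/
theorem twist_move (ha : Function.Injective a) {d : Derivation ℤ k k}
    {D : Derivation ℤ L L} (h : IsLift d D)
    {A B g₁ : MvPolynomial (Fin 2) k} {Δ : MvPolynomial (Fin 1) k} {l δ N : ℕ}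
    (hg : ∀ m, d ((X 1 ^ (2 * l) + g₁).coeff m) = 0)
    (h1 : ∀ m ∈ g₁.support, m 1 < 2 * l ∧ m 0 ≤ δ)
    (hAB : A * (X 1 ^ (2 * l) + g₁) + B * pderiv 1 (X 1 ^ (2 * l) + g₁) = rename (fun _ => 0) Δ)
    (hΔ : aeval (fun _ : Fin 1 => t) Δ ≠ 0) (hA : A.totalDegree ≤ N) (hB : B.totalDegree ≤ N)
    (hW : W k D t x ≠ 0) {i₀ : Fin q} (hda : ∀ i, i ≠ i₀ → d (a i) = 0) {z : L} (hz : z ≠ 0)
    (e : z ^ 2 = (∏ i, (t - algebraMap k L (a i))) * aeval ![t, x] (X 1 ^ (2 * l) + g₁))
    {C : ℤ} (hC : 5 + 2 * δ + N * (1 + δ) + l * δ ≤ C) :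
    2 * (l - 2) * hgt k x + (q - 2 - 2 * C * (1 + Δ.totalDegree)) * hgt k t ≤
      2 * canDeg k L := by
  classical
  have hG : aeval ![t, x] (X 1 ^ (2 * l) + g₁) ≠ 0 := by
    intro h2
    rw [h2, mul_zero] at e
    exact pow_ne_zero _ hz e
  obtain ⟨T1, hT1⟩ := exists_supp (k := k) (Finset.univ : Finset (Fin q))
    fun i => t - algebraMap k L (a i)
  obtain ⟨T3, hT3⟩ := exists_supp (k := k) (Finset.univ : Finset (Fin 5))
    ![t, x, W k D t x, aeval ![t, x] (X 1 ^ (2 * l) + g₁), aeval (fun _ : Fin 1 => t) Δ]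
  have hvf := vo_finite (k := k) (K := L) der_ne
  obtain ⟨T, hTd⟩ : ∃ T, T = T1 ∪ T3 ∪ hvf.toFinset := ⟨_, rfl⟩
  have hTa : ∀ i, ∀ P : Place k L, P.ord (t - algebraMap k L (a i)) ≠ 0 → P ∈ T := fun i P hP => by
    rw [hTd]; simp [hT1 i (Finset.mem_univ _) P hP]
  have hT3' : ∀ (i : Fin 5) (P : Place k L), P.ord ((![t, x, W k D t x,
      aeval ![t, x] (X 1 ^ (2 * l) + g₁), aeval (fun _ : Fin 1 => t) Δ] : Fin 5 → L) i) ≠ 0 →
      P ∈ T := fun i P hP => by
    rw [hTd]; simp [hT3 i (Finset.mem_univ _) P hP]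
  have hTv : ∀ P : Place k L, vo P (der k L) ≠ 0 → P ∈ T := fun P hP => by
    rw [hTd]; simp [hP]
  have s1 := sum_pol t T (hT3' 0)
  have s2 := sum_pol x T (hT3' 1)
  have s3 := sum_con a t T hTa
  have s4 := sum_ord_finset (aeval ![t, x] (X 1 ^ (2 * l) + g₁)) T (hT3' 3)
  have s5 := sum_zer (t - algebraMap k L (a i₀)) T (hTa i₀)
  rw [hgt_sub_const] at s5
  have s6 := sum_ord_finset (W k D t x) T (hT3' 2)
  have s7 := canDeg_finset (k := k) (K := L) der_ne T hTv
  have s8 := sum_zer (aeval (fun _ : Fin 1 => t) Δ) T (hT3' 4)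
  have s9 := hgt_one_var t Δ
  have key := Finset.sum_le_sum fun P (_ : P ∈ T) => loc_move ha P h hg h1 hAB hΔ hA hB hG hW hda
    (P.ord z) (ord_sq hz e P) hC
  simp only [Finset.sum_add_distrib, Finset.sum_sub_distrib, ← Finset.mul_sum] at key
  rw [s1, s2, s3, s4, s5, s6, s7, s8] at key
  have hC0 : 0 ≤ C := by
    have : (0 : ℤ) ≤ 5 + 2 * δ + N * (1 + δ) + l * δ := by positivity
    linarith
  have s10 := mul_le_mul_of_nonneg_left s9 hC0
  linarith

/-- The curve does not move with the points `a i`, `i ∈ G`. -/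
theorem twist_fix (ha : Function.Injective a) {g₁ : MvPolynomial (Fin 2) k} {l δ : ℕ}
    (h1 : ∀ m ∈ g₁.support, m 1 < 2 * l ∧ m 0 ≤ δ) (ht : Transcendental k t)
    {z : L} (hz : z ≠ 0)
    (e : z ^ 2 = (∏ i, (t - algebraMap k L (a i))) * aeval ![t, x] (X 1 ^ (2 * l) + g₁))
    (G : Finset (Fin q))
    (hder : ∀ i ∈ G, ∃ (d : Derivation ℤ k k) (D : Derivation ℤ L L), IsLift d D ∧ d (a i) = 1 ∧
      (∀ m, d ((X 1 ^ (2 * l) + g₁).coeff m) = 0) ∧ W k D t x = 0) :
    (G.card - 4) * hgt k t ≤ 2 * canDeg k L := by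
  classical
  have hG : aeval ![t, x] (X 1 ^ (2 * l) + g₁) ≠ 0 := by
    intro h2
    rw [h2, mul_zero] at e
    exact pow_ne_zero _ hz e
  have hδ : der k L t ≠ 0 := der_ne_zero der_ne ht
  have hα2 : ∀ P : Place k L, 0 < conG a G P t → 2 ≤ con a P t := by
    intro P hP
    rcases conG_cases ha G P t with h0 | ⟨i, hi, hi', -, hα⟩
    · omega
    have hp := pol_zero_of_zer hi'
    have hy := ord_sq hz e P
    rw [hp, mul_zero, sub_zero] at hy
    obtain ⟨γ, hγ⟩ : ∃ γ, γ = P.ord (aeval ![t, x] (X 1 ^ (2 * l) + g₁)) := ⟨_, rfl⟩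
    have hγe : ∃ v, γ = 2 * v := by
      by_cases hγ0 : 0 < γ
      · exfalso
        obtain ⟨d, D, hD, hda, hdg, hW⟩ := hder i hi
        have htr : Transcendental k (unif P) :=
          P.transcendental_of_ord_ne (by rw [ord_unif]; omega)
        obtain ⟨D₀, hD₀, hD₀u⟩ := exists_lift d htr
        rw [W_indep hD hD₀] at hW
        have h2 := gxW hD₀ hdg t x
        rw [hW, mul_zero] at h2
        have hc := ge_contact P hD₀ hD₀u hi'
        rw [hda, map_one] at hc
        have hu : D₀ t ≠ 0 ∧ P.ord (D₀ t) = 0 := by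
          have h3 : Ge P 0 (D₀ t) := by
            have := (hc.1.mono hi'.le).add (Ge.one (P := P))
            simpa using this
          have hne : D₀ t ≠ 0 := by
            intro h0
            have h4 := hc.1
            rw [h0, zero_sub] at h4
            have h5 : Ge P 1 (algebraMap k L (1 : k)) := by
              have := h4.neg
              rw [neg_neg] at this
              rw [map_one]
              exact this.mono (by omega)
            exact one_ne_zero (const_zero P h5)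
          refine ⟨hne, le_antisymm ?_ (h3.resolve_left hne)⟩
          by_contra hcon
          push Not at hcon
          have h5 : Ge P 1 (algebraMap k L (1 : k)) := by
            have h6 : Ge P 1 (D₀ t) := Or.inr (by omega)
            have h7 := h6.sub (hc.1.mono (by omega : (1 : ℤ) ≤ _))
            rw [map_one]
            simpa using h7
          exact one_ne_zero (const_zero P h5)
        have h3 : Ge P γ (D₀ (aeval ![t, x] (X 1 ^ (2 * l) + g₁))) :=
          hD₀.ge P (ord_unif P) hD₀u (Or.inr hγ.le)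
        have h4 := ord_der P (der_ne (k := k) (K := L))
          (f := aeval ![t, x] (X 1 ^ (2 * l) + g₁)) (by rw [← hγ]; omega)
        have h5 := h3.mul hc.2
        rw [show D₀ (aeval ![t, x] (X 1 ^ (2 * l) + g₁)) * der k L t =
          D₀ t * der k L (aeval ![t, x] (X 1 ^ (2 * l) + g₁)) by linear_combination h2] at h5
        have h6 := (Ge.of_mul hu.1 h5).resolve_left h4.1
        rw [hu.2, h4.2, ← hγ] at h6
        omega
      · push Not at hγ0
        by_cases hπ : 0 < pol P x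
        · have h2 := monic_ord P h1 (by rw [hp, mul_zero]; exact hπ) hG
          exact ⟨-(l * pol P x), by rw [hγ, h2]; ring⟩
        · have hπ0 : pol P x = 0 := le_antisymm (not_lt.1 hπ) (pol_nonneg P x)
          have h2 := ge_mvpoly P ![t, x] ![0, 0] (by
            intro i
            fin_cases i
            · have h3 := ge_pol P t
              simpa [hp] using h3
            · have h3 := ge_pol P x
              simpa [hπ0] using h3) (X 1 ^ (2 * l) + g₁)
          have h3 : (0 : ℤ) ≤ γ := by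
            have h4 := h2.resolve_left hG
            rw [← hγ] at h4
            simpa [Fin.sum_univ_two] using h4
          exact ⟨0, by omega⟩
    obtain ⟨v, hv⟩ := hγe
    rw [← hγ, hv] at hy
    omega
  obtain ⟨T1, hT1⟩ := exists_supp (k := k) (Finset.univ : Finset (Fin q))
    fun i => t - algebraMap k L (a i)
  obtain ⟨T3, hT3⟩ := exists_supp (k := k) (Finset.univ : Finset (Fin 2)) ![t, der k L t]
  have hvf := vo_finite (k := k) (K := L) der_ne
  obtain ⟨T, hTd⟩ : ∃ T, T = T1 ∪ T3 ∪ hvf.toFinset := ⟨_, rfl⟩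
  have hTa : ∀ i, ∀ P : Place k L, P.ord (t - algebraMap k L (a i)) ≠ 0 → P ∈ T := fun i P hP => by
    rw [hTd]; simp [hT1 i (Finset.mem_univ _) P hP]
  have hTt : ∀ P : Place k L, P.ord t ≠ 0 → P ∈ T := fun P hP => by
    rw [hTd]; simp [hT3 0 (Finset.mem_univ _) P hP]
  have hTW : ∀ P : Place k L, P.ord (der k L t) ≠ 0 → P ∈ T := fun P hP => by
    rw [hTd]; simp [hT3 1 (Finset.mem_univ _) P hP]
  have hTv : ∀ P : Place k L, vo P (der k L) ≠ 0 → P ∈ T := fun P hP => by
    rw [hTd]; simp [hP]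
  have s1 := sum_pol t T hTt
  have s3 := sum_conG a G t T hTa
  have s6 := sum_ord_finset (der k L t) T hTW
  have s7 := canDeg_finset (k := k) (K := L) der_ne T hTv
  have key : ∀ P ∈ T, -4 * pol P t + conG a G P t + 2 * vo P (der k L) ≤
      2 * P.ord (der k L t) := by
    intro P _
    have h3 := (ge_der_con ha P t).resolve_left hδ
    have h4 := le_max_left (con a P t - 1) 0
    have h5 := le_max_right (con a P t - 1) 0
    have h6 := conG_le a G P t
    by_cases h7 : 0 < conG a G P t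
    · have := hα2 P h7
      omega
    · have := conG_nonneg a G P t
      omega
  have hsum := Finset.sum_le_sum key
  simp only [Finset.sum_add_distrib, ← Finset.mul_sum] at hsum
  rw [s1, s3, s6, s7] at hsum
  linarith

/-- The dichotomy for twists. -/
theorem twist_main (k₀ : Subfield k) (ha : Function.Injective a) (G : Finset (Fin q))
    (ha0 : ∀ i, i ∉ G → a i ∈ k₀) (hab : AlgebraicIndependent k₀ (fun i : G => a i))
    {A B g₁ : MvPolynomial (Fin 2) k} {Δ : MvPolynomial (Fin 1) k} {l δ N : ℕ}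
    (hg0 : ∀ m, g₁.coeff m ∈ k₀)
    (h1 : ∀ m ∈ g₁.support, m 1 < 2 * l ∧ m 0 ≤ δ)
    (hAB : A * (X 1 ^ (2 * l) + g₁) + B * pderiv 1 (X 1 ^ (2 * l) + g₁) = rename (fun _ => 0) Δ)
    (hΔ : Δ ≠ 0) (hA : A.totalDegree ≤ N) (hB : B.totalDegree ≤ N)
    (ht : Transcendental k t) {z : L} (hz : z ≠ 0)
    (e : z ^ 2 = (∏ i, (t - algebraMap k L (a i))) * aeval ![t, x] (X 1 ^ (2 * l) + g₁))
    {C : ℤ} (hC : 5 + 2 * δ + N * (1 + δ) + l * δ ≤ C) :
    2 * (l - 2) * hgt k x + (q - 2 - 2 * C * (1 + Δ.totalDegree)) * hgt k t ≤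
      2 * canDeg k L ∨ (G.card - 4) * hgt k t ≤ 2 * canDeg k L := by
  classical
  have hΔt : aeval (fun _ : Fin 1 => t) Δ ≠ 0 := by
    have h2 : AlgebraicIndependent k (fun _ : Fin 1 => t) :=
      algebraicIndependent_unique_type_iff.2 ht
    intro h3
    exact hΔ ((algebraicIndependent_iff.1 h2) Δ h3)
  have hda : ∀ i ∈ G, ∃ (d : Derivation ℤ k k) (D : Derivation ℤ L L), IsLift d D ∧
      d (a i) = 1 ∧ (∀ i', i' ≠ i → d (a i') = 0) ∧
      (∀ m, d ((X 1 ^ (2 * l) + g₁).coeff m) = 0) := by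
    intro i hi
    obtain ⟨d, hd0, hd⟩ := exists_generic k₀ hab (⟨i, hi⟩ : G)
    obtain ⟨D, hD, -⟩ := exists_lift d ht
    refine ⟨d, D, hD, ?_, fun i' hi' => ?_, fun m => ?_⟩
    · have := hd ⟨i, hi⟩; simpa using this
    · by_cases h : i' ∈ G
      · have := hd ⟨i', h⟩; simpa [hi'] using this
      · exact hd0 _ (ha0 i' h)
    · rw [coeff_add, map_add, hd0 _ (hg0 m), add_zero]
      rw [coeff_X_pow]
      split_ifs
      · exact d.map_one_eq_zero
      · exact map_zero d
  by_cases hB' : ∃ i ∈ G, ∃ (d : Derivation ℤ k k) (D : Derivation ℤ L L), IsLift d D ∧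
      d (a i) = 1 ∧ (∀ i', i' ≠ i → d (a i') = 0) ∧
      (∀ m, d ((X 1 ^ (2 * l) + g₁).coeff m) = 0) ∧ W k D t x ≠ 0
  · left
    obtain ⟨i, hi, d, D, hD, -, hda2, hda3, hW⟩ := hB'
    exact twist_move ha hD hda3 h1 hAB hΔt hA hB hW hda2 hz e hC
  · right
    push Not at hB'
    exact twist_fix ha h1 ht hz e G fun i hi => by
      obtain ⟨d, D, hD, h3, h4, h5⟩ := hda i hi
      exact ⟨d, D, hD, h3, h5, hB' i hi d D hD h3 h4 h5⟩

end

end Pool.Agent.TH875.PQ
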